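import Pool.Agent.U434.HM.Sl2
import Pool.Agent.N184.HK.Coh

/-!
# Representations of `so(V)` map diagonalizable elements to diagonalizable operators
-/

set_option autoImplicit false

namespace Pool.Agent.U434.HM

open Module Module.End Polynomial
open Pool.Agent.N184.HK Pool.Agent.N184.HK.P_SL2B

section semi

variable {K H : Type} [Field K] [IsAlgClosed K] [AddCommGroup H] [Module K H]
  [FiniteDimensional K H]

lemma Diag.isSemisimple {T : Module.End K H} (h : Diag T) : T.IsSemisimple := by
  classical
  set p : K[X] := ∏ e ∈ T.charpoly.roots.toFinset, (X - C e) with hp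
  refine isSemisimple_of_squarefree_aeval_eq_zero (p := p) ?_ ?_
  · exact (separable_prod_X_sub_C_iff'.2 fun a _ b _ hab => hab).squarefree
  · refine ext_gen T fun e x hx => ?_
    rw [LinearMap.zero_apply]
    by_cases hx0 : x = 0
    · rw [hx0, map_zero]
    have he : e ∈ T.charpoly.roots := ne_bot_iff.1 fun h0 => hx0 (by
      rw [h0, Submodule.mem_bot] at hx; exact hx)
    have he2 : e ∈ T.charpoly.roots.toFinset := Multiset.mem_toFinset.2 he
    obtain ⟨r, hr⟩ := Finset.dvd_prod_of_mem (fun e => (X - C e : K[X])) he2
    rw [hp, hr, mul_comm, map_mul, Module.End.mul_apply]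
    have h1 : (aeval T (X - C e : K[X])) x = 0 := by
      rw [map_sub, aeval_X, aeval_C, LinearMap.sub_apply, h e x hx]
      exact sub_self _
    rw [h1, map_zero]

omit [IsAlgClosed K] in
lemma diag_of_semisimple {T : Module.End K H} (h : T.IsSemisimple) : Diag T := by
  intro e x hx
  rw [h.isFinitelySemisimple.maxGenEigenspace_eq_eigenspace] at hx
  exact Module.End.mem_eigenspace_iff.1 hx

lemma Diag.smul {T : Module.End K H} (hT : Diag T) (c : K) : Diag (c • T) :=
  diag_of_semisimple (IsSemisimple_smul c hT.isSemisimple)

lemma Diag.add_smul [CharZero K] {S T : Module.End K H} (hS : Diag S) (hT : Diag T)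
    (hc : Commute S T) (c : K) : Diag (S + c • T) :=
  diag_of_semisimple (IsSemisimple.add_of_commute (hc.smul_right c) hS.isSemisimple
    (hT.smul c).isSemisimple)

end semi

section wedge

variable {K V : Type} [Field K] [AddCommGroup V] [Module K V] (q : LinearMap.BilinForm K V)

/-- The operator `x ↦ q(f, x) e - q(e, x) f`. -/
noncomputable def wed (e f : V) : Module.End K V :=
  (LinearMap.toSpanSingleton K V e) ∘ₗ (q f) - (LinearMap.toSpanSingleton K V f) ∘ₗ (q e)

lemma wed_apply (e f x : V) : wed q e f x = q f x • e - q e x • f := rfl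

variable {q}

lemma wed_skew (hq : q.IsSymm) (e f : V) : Skew q (wed q e f) := by
  intro x y
  rw [wed_apply, wed_apply, map_sub, map_smul, map_smul, LinearMap.sub_apply,
    LinearMap.smul_apply, LinearMap.smul_apply, map_sub, map_smul, map_smul]
  have h1 : q x e = q e x := hq.eq x e
  have h2 : q x f = q f x := hq.eq x f
  simp only [smul_eq_mul, h1, h2]
  ring

/-- `[A, e ∧ f] = A e ∧ f + e ∧ A f`. -/
lemma wed_bracket {A : Module.End K V} (hA : Skew q A) (e f : V) :
    A * wed q e f - wed q e f * A = wed q (A e) f + wed q e (A f) := by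
  ext x
  have h1 : q f (A x) = -q (A f) x := by
    have := hA f x
    rw [add_comm] at this
    exact eq_neg_of_add_eq_zero_left this
  have h2 : q e (A x) = -q (A e) x := by
    have := hA e x
    rw [add_comm] at this
    exact eq_neg_of_add_eq_zero_left this
  rw [LinearMap.sub_apply, Module.End.mul_apply, Module.End.mul_apply, LinearMap.add_apply,
    wed_apply, wed_apply, wed_apply, wed_apply, map_sub, map_smul, map_smul, h1, h2]
  module

variable [CharZero K] [FiniteDimensional K V]

omit [FiniteDimensional K V] in
lemma exists_anis (hq : q.IsSymm) (hn : q.Nondegenerate) (h3 : 3 ≤ finrank K V) {e f : V}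
    (hee : q e e = 0) (hff : q f f = 0) (hef : q e f = 1) :
    ∃ v, q e v = 0 ∧ q f v = 0 ∧ q v v ≠ 0 := by
  by_contra hcon
  push Not at hcon
  have hsym : ∀ x y, q x y = q y x := fun x y => hq.eq x y
  have hpol : ∀ u u', q e u = 0 → q f u = 0 → q e u' = 0 → q f u' = 0 → q u u' = 0 := by
    intro u u' h1 h2 h1' h2'
    have h4 := hcon (u + u') (by rw [map_add, h1, h1', add_zero])
      (by rw [map_add, h2, h2', add_zero])
    simp only [map_add, LinearMap.add_apply] at h4
    rw [hcon u h1 h2, hcon u' h1' h2', hsym u' u] at h4
    have h5 : (2 : K) * q u u' = 0 := by linear_combination h4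
    exact (mul_eq_zero.1 h5).resolve_left two_ne_zero
  have hall : ∀ v, v = q v f • e + q v e • f := by
    intro v
    set v' := v - (q v f • e + q v e • f) with hv'
    have h1 : q e v' = 0 := by
      rw [hv', map_sub, map_add, map_smul, map_smul, hee, hef, hsym e v]
      simp
    have h2 : q f v' = 0 := by
      rw [hv', map_sub, map_add, map_smul, map_smul, hff, hsym f e, hef, hsym f v]
      simp
    have h4 : v' = 0 := by
      refine hn.1 v' fun w => ?_
      have h5 : w = (w - (q w f • e + q w e • f)) + (q w f • e + q w e • f) := by abel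
      rw [h5, map_add, map_add, map_smul, map_smul, hsym v' e, hsym v' f, h1, h2,
        hpol v' _ h1 h2]
      · simp
      · rw [map_sub, map_add, map_smul, map_smul, hee, hef, hsym e w]
        simp
      · rw [map_sub, map_add, map_smul, map_smul, hff, hsym f e, hef, hsym f w]
        simp
    exact sub_eq_zero.1 h4
  classical
  have htop : Submodule.span K (({e, f} : Finset V) : Set V) = ⊤ := by
    rw [eq_top_iff]
    intro v _
    rw [hall v]
    exact Submodule.add_mem _ (Submodule.smul_mem _ _ (Submodule.subset_span (by simp)))
      (Submodule.smul_mem _ _ (Submodule.subset_span (by simp)))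
  have hle := finrank_span_finset_le_card (R := K) ({e, f} : Finset V)
  rw [Set.finrank, htop, finrank_top] at hle
  have := Finset.card_le_two (a := e) (b := f)
  omega

end wedge

section rep

variable {K V H : Type} [Field K] [CharZero K] [IsAlgClosed K] [AddCommGroup V] [Module K V]
  [FiniteDimensional K V] [AddCommGroup H] [Module K H] [FiniteDimensional K H]
  {q : LinearMap.BilinForm K V} (hq : q.IsSymm) (hn : q.Nondegenerate) (h3 : 3 ≤ finrank K V)
  {ρ : Act K V H} (hρ : ρ.IsRep q)

include hq hn h3 hρ

lemma wed_diag {e f : V} (hee : q e e = 0) (hff : q f f = 0) (hef : q e f = 1) :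
    Diag (ρ (wed q e f)) := by
  obtain ⟨v, hev, hfv, hvv⟩ := exists_anis hq hn h3 hee hff hef
  have hsym : ∀ x y, q x y = q y x := fun x y => hq.eq x y
  have hve : q v e = 0 := by rw [hsym]; exact hev
  have hvf : q v f = 0 := by rw [hsym]; exact hfv
  have hfe : q f e = 1 := by rw [hsym]; exact hef
  set D : Module.End K V := wed q e f with hD
  set A : Module.End K V := wed q e v with hA
  set B : Module.End K V := wed q v f with hB
  have sD : Skew q D := wed_skew hq e f
  have sA : Skew q A := wed_skew hq e v
  have sB : Skew q B := wed_skew hq v f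
  have De : D e = e := by rw [hD, wed_apply, hfe, hee]; simp
  have Df : D f = -f := by rw [hD, wed_apply, hff, hef]; simp
  have Dv : D v = 0 := by rw [hD, wed_apply, hfv, hev]; simp
  have b1 : D * A - A * D = A := by
    rw [hA, wed_bracket sD, De, Dv]
    ext x
    simp [wed_apply]
  have b2 : D * B - B * D = -B := by
    rw [hB, wed_bracket sD, Dv, Df]
    ext x
    simp [wed_apply]
    abel
  have b3 : A * B - B * A = (q v v) • D := by
    have h4 : A v = q v v • e := by rw [hA, wed_apply, hev]; simp
    have h5 : A f = -v := by rw [hA, wed_apply, hvf, hef]; simp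
    rw [hB, wed_bracket sA, h4, h5]
    ext x
    rw [LinearMap.add_apply, wed_apply, wed_apply, LinearMap.smul_apply, hD, wed_apply]
    simp only [map_smul, map_neg, LinearMap.smul_apply, LinearMap.neg_apply, smul_eq_mul]
    module
  have hTr : Tr (ρ A) (ρ ((2 : K) • D)) ((2 / q v v) • ρ B) := by
    refine ⟨?_, ?_, ?_⟩
    · rw [map_smul, smul_mul_assoc, mul_smul_comm, ← smul_sub, ← hρ D A sD sA, b1]
    · have h4 := hρ D B sD sB
      rw [b2, map_neg] at h4
      have h5 : ρ D * ρ B = ρ B * ρ D - ρ B := by
        rw [sub_eq_add_neg, h4]; abel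
      simp only [map_smul, smul_mul_assoc, mul_smul_comm, h5]
      module
    · rw [mul_smul_comm, smul_mul_assoc, ← smul_sub, ← hρ A B sA sB, b3, map_smul, map_smul,
        smul_smul, div_mul_cancel₀ _ hvv]
  have h6 := diag_sl2 hTr
  intro c x hx
  have h7 : x ∈ (ρ ((2 : K) • D)).maxGenEigenspace (2 * c) := by
    rw [Module.End.mem_maxGenEigenspace] at hx ⊢
    obtain ⟨k, hk⟩ := hx
    refine ⟨k, ?_⟩
    have h8 : ρ ((2 : K) • D) - (2 * c) • (1 : Module.End K H) = (2 : K) • (ρ D - c • 1) := by
      rw [map_smul, smul_sub, smul_smul]
    rw [h8, _root_.smul_pow, LinearMap.smul_apply, hk, smul_zero]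
  have h8 := h6 _ _ h7
  rw [map_smul, LinearMap.smul_apply, mul_smul] at h8
  exact smul_right_injective H (two_ne_zero (α := K)) h8

/-- Representations of `so(V)` map diagonalizable elements to diagonalizable operators. -/
theorem rep_diag {A : Module.End K V} (hA : Skew q A) (hdA : Diag A) : Diag (ρ A) := by
  have hsym : ∀ x y, q x y = q y x := fun x y => hq.eq x y
  have key : ∀ (n : ℕ) (A : Module.End K V), Skew q A → Diag A →
      finrank K (LinearMap.range A) ≤ n → Diag (ρ A) := by
    intro n
    induction n with
    | zero =>
      intro A hA hdA hr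
      have h1 : A = 0 := by
        rw [← LinearMap.range_eq_bot]
        exact Submodule.finrank_eq_zero.1 (Nat.le_zero.1 hr)
      have h2 : Diag (0 : Module.End K H) := diag_of_semisimple isSemisimple_zero
      rw [h1, map_zero]
      exact h2
    | succ n ih =>
      intro A hA hdA hr
      by_cases hA0 : A = 0
      · refine ih A hA hdA ?_
        rw [hA0, LinearMap.range_zero, finrank_bot]
        exact Nat.zero_le _
      -- a nonzero eigenvalue
      have hex : ∃ l : K, l ≠ 0 ∧ ∃ e, A e = l • e ∧ e ≠ 0 := by
        by_contra hcon
        push Not at hcon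
        refine hA0 (ext_gen A fun l x hx => ?_)
        rw [LinearMap.zero_apply, hdA l x hx]
        by_cases hl : l = 0
        · rw [hl, zero_smul]
        · rw [hcon l hl x (hdA l x hx), smul_zero]
      obtain ⟨l, hl, e, he, he0⟩ := hex
      have hee : q e e = 0 := by
        have h1 := hA e e
        rw [he, map_smul, LinearMap.smul_apply, map_smul, smul_eq_mul] at h1
        have h2 : (2 * l) * q e e = 0 := by linear_combination h1
        exact (mul_eq_zero.1 h2).resolve_left (mul_ne_zero two_ne_zero hl)
      have hexf : ∃ x ∈ A.maxGenEigenspace (-l), q e x ≠ 0 := by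
        by_contra hcon
        push Not at hcon
        refine he0 (hn.1 e fun y => ?_)
        have h1 : q e = 0 := by
          refine ext_gen A fun m x hx => ?_
          rw [LinearMap.zero_apply]
          by_cases hm : m = -l
          · exact hcon x (hm ▸ hx)
          · have h2 := hA e x
            rw [he, hdA m x hx, map_smul, LinearMap.smul_apply, map_smul, smul_eq_mul,
              smul_eq_mul, ← add_mul] at h2
            refine (mul_eq_zero.1 h2).resolve_left fun h3 => hm ?_
            linear_combination h3
        rw [h1, LinearMap.zero_apply]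
      obtain ⟨x, hx, hex⟩ := hexf
      obtain ⟨f, hf⟩ : ∃ f, f = (q e x)⁻¹ • x := ⟨_, rfl⟩
      have hf1 : A f = -l • f := by
        rw [hf, map_smul, hdA _ x hx, smul_comm]
      have hef : q e f = 1 := by
        rw [hf, map_smul, smul_eq_mul, inv_mul_cancel₀ hex]
      have hff : q f f = 0 := by
        have h1 := hA f f
        rw [hf1, map_smul, LinearMap.smul_apply, map_smul, smul_eq_mul] at h1
        have h2 : (2 * l) * q f f = 0 := by linear_combination -h1
        exact (mul_eq_zero.1 h2).resolve_left (mul_ne_zero two_ne_zero hl)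
      set W := wed q e f with hW
      have sW : Skew q W := wed_skew hq e f
      have hWc : A * W - W * A = 0 := by
        rw [hW, wed_bracket hA, he, hf1]
        ext y
        simp only [LinearMap.add_apply, wed_apply, LinearMap.zero_apply, map_smul,
          LinearMap.smul_apply, smul_eq_mul]
        module
      have hdW : Diag W := by
        have h1 := wed_diag (ρ := (LinearMap.id : Act K V V)) hq hn h3
          (fun A B _ _ => rfl) hee hff hef
        exact h1
      set A' := A + (-l) • W with hA'
      have sA' : Skew q A' := by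
        intro y z
        have h1 := hA y z
        have h2 := sW y z
        rw [hA']
        simp only [LinearMap.add_apply, LinearMap.smul_apply, map_add, map_smul, smul_eq_mul]
        linear_combination h1 + (-l) * h2
      have hdA' : Diag A' := hdA.add_smul hdW (sub_eq_zero.1 hWc) (-l)
      have hle : LinearMap.range A' ≤ LinearMap.range A := by
        rintro _ ⟨y, rfl⟩
        refine ⟨y - q f y • l⁻¹ • (l • e) - q e y • f, ?_⟩
        rw [smul_smul l⁻¹, inv_mul_cancel₀ hl, one_smul, map_sub, map_sub, map_smul, map_smul, he,
          hf1, hA', LinearMap.add_apply, LinearMap.smul_apply, hW, wed_apply]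
        module
      have hA'f : A' f = 0 := by
        rw [hA', LinearMap.add_apply, LinearMap.smul_apply, hW, wed_apply, hf1, hff, hef]
        module
      have hlt : LinearMap.range A' < LinearMap.range A := by
        refine lt_of_le_of_ne hle fun heq => ?_
        have h1 : e ∈ LinearMap.range A' := by
          rw [heq]
          exact ⟨l⁻¹ • e, by rw [map_smul, he, smul_smul, inv_mul_cancel₀ hl, one_smul]⟩
        obtain ⟨y, hy⟩ := h1
        have h2 := sA' y f
        rw [hy, hA'f, map_zero, add_zero, hef] at h2
        exact one_ne_zero h2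
      have hr' : finrank K (LinearMap.range A') ≤ n :=
        Nat.lt_succ_iff.1 (lt_of_lt_of_le (Submodule.finrank_lt_finrank_of_lt hlt) hr)
      have h1 := ih A' sA' hdA' hr'
      have h2 := wed_diag hq hn h3 hρ hee hff hef
      have hc : Commute (ρ A') (ρ W) := by
        have h4 : A' * W - W * A' = 0 := by
          rw [hA', add_mul, mul_add, smul_mul_assoc, mul_smul_comm]
          rw [sub_eq_zero] at hWc
          rw [hWc, sub_self]
        have h5 := hρ A' W sA' sW
        rw [h4, map_zero] at h5
        exact sub_eq_zero.1 h5.symm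
      have h4 := h1.add_smul h2 hc l
      have h5 : ρ A' + l • ρ W = ρ A := by
        rw [← map_smul, ← map_add, hA']
        congr 1
        module
      rw [h5] at h4
      exact h4
  exact key _ A hA hdA le_rfl

end rep

end Pool.Agent.U434.HM
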