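import Pool.Agent.U434.PA.Clo
import Pool.Agent.U434.HM.SoDiag

/-!
# Additive functions of the eigenvalues
-/

set_option autoImplicit false

namespace Pool.Agent.U434.HM

open Module Module.End Polynomial
open Pool.Agent.N184.HK Pool.Agent.U434.PA
open scoped Classical

/-- A homomorphism from the multiplicative group of `K` to the additive group of `K`. -/
structure AddFun (K : Type) [Field K] where
  w : K → K
  map_mul : ∀ x y, x ≠ 0 → y ≠ 0 → w (x * y) = w x + w y

namespace AddFun

variable {K : Type} [Field K] (W : AddFun K)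

lemma one : W.w 1 = 0 := by
  have h := W.map_mul 1 1 one_ne_zero one_ne_zero
  rw [mul_one] at h
  exact left_eq_add.1 h

lemma pow {x : K} (hx : x ≠ 0) (n : ℕ) : W.w (x ^ n) = n * W.w x := by
  induction n with
  | zero => simp [W.one]
  | succ n ih =>
    rw [_root_.pow_succ, W.map_mul _ _ (pow_ne_zero n hx) hx, ih]
    push_cast
    ring

lemma inv {x : K} (hx : x ≠ 0) : W.w x⁻¹ = -W.w x := by
  have h := W.map_mul x x⁻¹ hx (inv_ne_zero hx)
  rw [mul_inv_cancel₀ hx, W.one] at h
  exact eq_neg_of_add_eq_zero_right h.symm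

lemma root [CharZero K] {x : K} {n : ℕ} (hn : 0 < n) (h : x ^ n = 1) : W.w x = 0 := by
  have hx : x ≠ 0 := fun h0 => by
    rw [h0, zero_pow hn.ne'] at h
    exact zero_ne_one h
  have h1 := W.pow hx n
  rw [h, W.one] at h1
  exact (mul_eq_zero.1 h1.symm).resolve_left (by exact_mod_cast hn.ne')

lemma prod {s : Multiset K} (hs : ∀ e ∈ s, e ≠ 0) : W.w s.prod = (s.map W.w).sum := by
  induction s using Multiset.induction_on with
  | empty => simp [W.one]
  | cons a s ih =>
    have h1 : s.prod ≠ 0 := Multiset.prod_ne_zero fun h0 =>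
      hs 0 (Multiset.mem_cons_of_mem h0) rfl
    rw [Multiset.prod_cons, W.map_mul _ _ (hs a (Multiset.mem_cons_self a s)) h1,
      Multiset.map_cons, Multiset.sum_cons, ih fun e he => hs e (Multiset.mem_cons_of_mem he)]

end AddFun

section

variable {K H : Type} [Field K] [IsAlgClosed K] [AddCommGroup H] [Module K H]
  [FiniteDimensional K H] (W : AddFun K)

lemma comm_fop' {φ : H ≃ₗ[K] H} {t : K} {B : Module.End K H}
    (hB : B ∈ (adE φ).maxGenEigenspace t) :
    fop (en φ) W.w * B - B * fop (en φ) W.w = W.w t • B := by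
  refine ext_gen (en φ) fun e x hx => ?_
  have h1 := conj_gen hB hx
  rw [LinearMap.sub_apply, Module.End.mul_apply, Module.End.mul_apply, fop_apply _ h1,
    fop_apply _ hx, LinearMap.smul_apply, map_smul, ← sub_smul]
  by_cases hB0 : B x = 0
  · rw [hB0, smul_zero, smul_zero]
  have hx0 : x ≠ 0 := fun h => hB0 (by rw [h, map_zero])
  have he : e ∈ (en φ).charpoly.roots := ne_bot_iff.1 fun h => hx0 (by
    rw [h, Submodule.mem_bot] at hx; exact hx)
  have hte : t * e ∈ (en φ).charpoly.roots := ne_bot_iff.1 fun h => hB0 (by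
    rw [h, Submodule.mem_bot] at h1; exact h1)
  have ht : t ≠ 0 := left_ne_zero_of_mul (root_ne hte)
  congr 1
  rw [W.map_mul _ _ ht (root_ne he)]
  ring

variable {V : Type} [AddCommGroup V] [Module K V] [FiniteDimensional K V]

lemma inter' {φV : V ≃ₗ[K] V} {φH : H ≃ₗ[K] H} {ρ : Module.End K V →ₗ[K] Module.End K H}
    (hc : ∀ A, adE φH (ρ A) = ρ (adE φV A)) (A : Module.End K V) :
    fop (en φH) W.w * ρ A - ρ A * fop (en φH) W.w =
      ρ (fop (en φV) W.w * A - A * fop (en φV) W.w) := by
  set F := fop (en φH) W.w with hF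
  set G := fop (en φV) W.w with hG
  have key : (LinearMap.mulLeft K F - LinearMap.mulRight K F) ∘ₗ ρ =
      ρ ∘ₗ (LinearMap.mulLeft K G - LinearMap.mulRight K G) := by
    refine ext_gen (adE φV) fun t A hA => ?_
    have h1 : ρ A ∈ (adE φH).maxGenEigenspace t := by
      rw [Module.End.mem_maxGenEigenspace] at hA ⊢
      obtain ⟨k, hk⟩ := hA
      refine ⟨k, ?_⟩
      have h2 : ∀ (k : ℕ) (A : Module.End K V), ((adE φH - t • 1) ^ k) (ρ A) =
          ρ (((adE φV - t • 1) ^ k) A) := by
        intro k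
        induction k with
        | zero => intro A; rfl
        | succ k ih =>
          intro A
          rw [_root_.pow_succ, _root_.pow_succ, Module.End.mul_apply, Module.End.mul_apply, ← ih]
          congr 1
          change adE φH (ρ A) - t • ρ A = ρ (adE φV A - t • A)
          rw [hc, map_sub, map_smul]
      rw [h2, hk, map_zero]
    have h2 := comm_fop' W h1
    have h3 := comm_fop' W hA
    change F * ρ A - ρ A * F = ρ (G * A - A * G)
    rw [h2, h3, map_smul]
  exact congrArg (fun f => f A) key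

lemma skew_fop' {q : LinearMap.BilinForm K V} {φ : V ≃ₗ[K] V} {μ : K}
    [CharZero K] (hμ : ∀ x y, q (φ x) (φ y) = μ * q x y) :
    Skew q (fop (en φ) W.w - (W.w μ / 2) • 1) := by
  set S := fop (en φ) W.w - (W.w μ / 2) • (1 : Module.End K V) with hS
  have hS' : ∀ {a : K} {x : V}, x ∈ (en φ).maxGenEigenspace a →
      S x = (W.w a - W.w μ / 2) • x := by
    intro a x hx
    rw [hS, LinearMap.sub_apply, fop_apply _ hx, sub_smul]
    rfl
  have key : q ∘ₗ S + q.compl₂ S = 0 := by
    refine ext_gen (en φ) fun a x hx => ?_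
    refine ext_gen (en φ) fun b y hy => ?_
    change q (S x) y + q x (S y) = 0
    rw [hS' hx, hS' hy, map_smul, map_smul, LinearMap.smul_apply, smul_eq_mul, smul_eq_mul,
      ← add_mul]
    by_cases hq : q x y = 0
    · rw [hq, mul_zero]
    have hab : μ = a * b := by
      rw [Module.End.mem_maxGenEigenspace] at hx hy
      obtain ⟨k, hk⟩ := hx
      obtain ⟨m, hm⟩ := hy
      have h := form_aux hμ (k + m) k m x y le_rfl hk hm
      have h2 := (mul_eq_zero.1 h).resolve_right hq
      have hne : k + m ≠ 0 := fun h0 => by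
        rw [h0] at h2
        simp at h2
      exact sub_eq_zero.1 ((pow_eq_zero_iff hne).1 h2)
    have hx0 : x ≠ 0 := fun h => hq (by rw [h]; simp)
    have hy0 : y ≠ 0 := fun h => hq (by rw [h]; simp)
    have ha : a ∈ (en φ).charpoly.roots := ne_bot_iff.1 fun h => hx0 (by
      rw [h, Submodule.mem_bot] at hx; exact hx)
    have hb : b ∈ (en φ).charpoly.roots := ne_bot_iff.1 fun h => hy0 (by
      rw [h, Submodule.mem_bot] at hy; exact hy)
    rw [hab, W.map_mul _ _ (root_ne ha) (root_ne hb)]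
    ring
  intro x y
  have := congrArg (fun f => f x y) key
  exact this

end

section auto

variable {K : Type} [Field K] [IsAlgClosed K] [CharZero K] {d : ℕ} {c : ℚ}
  {X : Cohomology K d c} (F : X.Auto) (W : AddFun K)

/-- The element `S` of `so(H²)` given by the logarithm `W` of the Frobenius torus. -/
noncomputable def SS : Module.End K (X.H 2) :=
  fop (en (F.φ 2)) W.w - (W.w F.μ / 2) • 1

lemma SS_skew : Skew X.q (SS F W) := skew_fop' W F.similar

/-- The part of the operator on `H^i` which does not come from `so(H²)`. -/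
noncomputable def TT (i : ℕ) (κ : K) : Module.End K (X.H i) :=
  fop (en (F.φ i)) W.w - κ • 1 - X.ρ i (SS F W)

lemma TT_comm {i : ℕ} (κ : K) {A : Module.End K (X.H 2)} (hA : Skew X.q A) :
    Commute (X.ρ i A) (TT F W i κ) := by
  have h := inter' W (F.hc i) A
  have hb := X.bracket i (SS F W) A (SS_skew F W) hA
  have h3 : SS F W * A - A * SS F W =
      fop (en (F.φ 2)) W.w * A - A * fop (en (F.φ 2)) W.w := by
    rw [SS, sub_mul, mul_sub, smul_mul_assoc, mul_smul_comm, one_mul, mul_one]
    abel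
  rw [h3, ← h] at hb
  have h5 : Commute (X.ρ i A) (fop (en (F.φ i)) W.w - X.ρ i (SS F W)) := by
    refine sub_eq_zero.1 ?_
    have : X.ρ i A * (fop (en (F.φ i)) W.w - X.ρ i (SS F W)) -
        (fop (en (F.φ i)) W.w - X.ρ i (SS F W)) * X.ρ i A =
        (X.ρ i (SS F W) * X.ρ i A - X.ρ i A * X.ρ i (SS F W)) -
        (fop (en (F.φ i)) W.w * X.ρ i A - X.ρ i A * fop (en (F.φ i)) W.w) := by
      rw [mul_sub, sub_mul]; abel
    rw [this, hb, sub_self]
  rw [TT, sub_right_comm]
  exact h5.sub_right ((Commute.one_right _).smul_right _)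

lemma TT_comm_φ (i : ℕ) (κ : K) : Commute (TT F W i κ) (en (F.φ i)) := by
  refine Commute.symm ?_
  refine ((commute_fop_φ i _).sub_right ((Commute.one_right _).smul_right _)).sub_right ?_
  have h1 : Commute (en (F.φ 2)) (SS F W) :=
    (commute_fop_φ (F := F) 2 W.w).sub_right ((Commute.one_right _).smul_right _)
  exact rho_comm_φ i h1

lemma TT_ad {i : ℕ} (κ : K) {t : K} {a : Module.End K (X.H i)} (ha : a ∈ cen X i)
    (hat : a ∈ (adE (F.φ i)).maxGenEigenspace t) :
    TT F W i κ * a - a * TT F W i κ = W.w t • a := by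
  have h1 := comm_fop' W hat
  have h3 := (ha _ (SS_skew F W)).eq
  have h4 : fop (en (F.φ i)) W.w = κ • 1 + X.ρ i (SS F W) + TT F W i κ := by
    rw [TT]; abel
  rw [h4] at h1
  rw [← h1, add_mul, add_mul, mul_add, mul_add, h3, smul_mul_assoc, mul_smul_comm, one_mul,
    mul_one]
  abel

end auto

section

variable {Ω : Type} [Field Ω] [CharZero Ω] [IsAlgClosed Ω] [TopologicalSpace Ω]
  [IsTopologicalRing Ω] [T2Space Ω] {X : HKFamily Ω} {F : X.H.Auto} (hF : InClosure X F)
  (W : AddFun Ω)

include hF in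
/-- The operator `T` commutes with the commutant of `so(H²)`. -/
lemma TT_cen {i : ℕ} (hi : i ≤ X.d) (κ : Ω) {a : Module.End Ω (X.H.H i)}
    (ha : a ∈ cen X.H i) : Commute (TT F W i κ) a := by
  have hst : ∀ x ∈ cen X.H i, adE (F.φ i) x ∈ cen X.H i := fun x hx => cen_ad _ hx
  set T := TT F W i κ with hT
  have key : (LinearMap.mulLeft Ω T - LinearMap.mulRight Ω T) ∘ₗ (cen X.H i).subtype = 0 := by
    refine ext_gen ((adE (F.φ i)).restrict hst) fun t x hx => ?_
    rw [LinearMap.zero_apply]
    change T * (x : Module.End Ω (X.H.H i)) - (x : Module.End Ω (X.H.H i)) * T = 0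
    have hx' : (x : Module.End Ω (X.H.H i)) ∈ (adE (F.φ i)).maxGenEigenspace t := by
      rw [Module.End.mem_maxGenEigenspace] at hx ⊢
      obtain ⟨k, hk⟩ := hx
      refine ⟨k, ?_⟩
      have h2 : ∀ (k : ℕ) (x : cen X.H i),
          (((((adE (F.φ i)).restrict hst) - t • 1) ^ k) x :
            Module.End Ω (X.H.H i)) =
          ((adE (F.φ i) - t • 1) ^ k) (x : Module.End Ω (X.H.H i)) := by
        intro k
        induction k with
        | zero => intro x; rfl
        | succ k ih =>
          intro x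
          rw [_root_.pow_succ, _root_.pow_succ, Module.End.mul_apply, Module.End.mul_apply, ih]
          rfl
      rw [← h2, hk]
      rfl
    by_cases hx0 : (x : Module.End Ω (X.H.H i)) = 0
    · rw [hx0, mul_zero, zero_mul, sub_zero]
    have ht := PA.cen_root hF hi x.2 hx0 hx'
    rw [TT_ad F W κ x.2 hx', W.root (Nat.factorial_pos _) ht, zero_smul]
  have h5 := congrArg (fun f => f ⟨a, ha⟩) key
  exact sub_eq_zero.1 h5

include hF in
/-- The operator `T` is nilpotent. -/
lemma TT_nil {i : ℕ} (hi : i ≤ X.d) : IsNilpotent (TT F W i ((i : Ω) * W.w F.μ / 4)) := by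
  set κ : Ω := (i : Ω) * W.w F.μ / 4 with hκ
  set T := TT F W i κ with hT
  refine nil_of_roots fun x hx => ?_
  obtain ⟨z, n, hn, hzz, hz, htz, htTz⟩ := proj_spec hx
  have hzcen : z ∈ cen X.H i := fun A hA => hz _ (TT_comm F W κ hA)
  have hzc : ∀ a ∈ cen X.H i, Commute a z := fun a ha => hz a (TT_cen hF W hi κ ha).symm
  have hzφ : Commute (en (F.φ i)) z := hz _ (TT_comm_φ F W i κ).symm
  have hdet := clo_det hF hi hzcen hzz hzc hzφ htz
  obtain ⟨s, hs, hcard, hsdet, htr⟩ := t_detp Ω _ _ z hzφ hzz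
  rw [hsdet] at hdet
  have hs0 : ∀ e ∈ s, e ≠ 0 := fun e he => root_ne (hs e he)
  have hsp : s.prod ≠ 0 := Multiset.prod_ne_zero fun h0 => hs0 0 h0 rfl
  have h10 := congrArg W.w hdet
  rw [W.pow hsp, W.pow F.μ_ne, W.prod hs0] at h10
  have hpos : (PA.expo2 X i n : Ω) ≠ 0 := by exact_mod_cast (PA.expo2_pos X i n).ne'
  have h11 : (s.map W.w).sum = κ * n := by
    have h12 : (4 * (PA.expo2 X i n : Ω)) * ((s.map W.w).sum - κ * n) = 0 := by
      rw [hκ]
      push_cast at h10
      linear_combination h10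
    have h13 := (mul_eq_zero.1 h12).resolve_left (mul_ne_zero (by norm_num) hpos)
    exact sub_eq_zero.1 h13
  have h12 := htr W.w
  have h4 : fop (en (F.φ i)) W.w = κ • 1 + X.H.ρ i (SS F W) + T := by
    rw [hT, TT]; abel
  rw [h11, h4, add_mul, add_mul, map_add, map_add,
    tr_rho_mul (SS_skew F W) (fun B hB => hzcen B hB), smul_mul_assoc,
    one_mul, map_smul, htz, smul_eq_mul, add_zero, htTz] at h12
  have h14 : x * n = 0 := add_eq_left.1 h12
  rcases mul_eq_zero.1 h14 with h | h
  · exact h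
  · exfalso
    have : n = 0 := by exact_mod_cast h
    omega

include hF in
/-- The Lie algebra of the Frobenius torus on `H^i` comes from `so(H²)`. -/
theorem fop_formula {i : ℕ} (hi : i ≤ X.d) :
    fop (en (F.φ i)) W.w = ((i : Ω) * W.w F.μ / 4) • 1 + X.H.ρ i (SS F W) := by
  set κ : Ω := (i : Ω) * W.w F.μ / 4 with hκ
  have hfop : ∀ {H : Type} [AddCommGroup H] [Module Ω H] [FiniteDimensional Ω H]
      (φ : Module.End Ω H) (w : Ω → Ω) (c : Ω), Diag (fop φ w + c • 1) := by
    intro H _ _ _ φ w c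
    have h1 : (fop φ w + c • 1) = fop φ (fun e => w e - (-c)) := by
      rw [fop_sub, fop_const, neg_smul, sub_neg_eq_add]
    rw [h1]
    intro e x hx
    rw [(t_fope Ω H φ _).2.1] at hx
    exact Module.End.mem_eigenspace_iff.1 hx
  have h1 : Diag (fop (en (F.φ i)) W.w + (-κ) • 1) := hfop _ _ _
  have h2 : Diag (SS F W) := by
    have := hfop (en (F.φ 2)) W.w (-(W.w F.μ / 2))
    rw [neg_smul, ← sub_eq_add_neg] at this
    exact this
  have h3 := rep_diag X.H.symm X.H.nondeg X.H.dim3 (X.H.bracket i) (SS_skew F W) h2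
  have hc : Commute (fop (en (F.φ i)) W.w + (-κ) • 1) (X.H.ρ i (SS F W)) := by
    have h4 := TT_comm F W (i := i) κ (SS_skew F W)
    have h5 : fop (en (F.φ i)) W.w + (-κ) • 1 = TT F W i κ + X.H.ρ i (SS F W) := by
      rw [TT, neg_smul]; abel
    rw [h5]
    exact h4.symm.add_left (Commute.refl _)
  have h4 := h1.add_smul h3 hc (-1)
  have h5 : fop (en (F.φ i)) W.w + (-κ) • 1 + (-1 : Ω) • X.H.ρ i (SS F W) = TT F W i κ := by
    rw [TT, neg_smul, neg_smul, one_smul]; abel
  rw [h5] at h4
  have h6 : TT F W i κ = 0 := by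
    refine ext_gen (TT F W i κ) fun e x hx => ?_
    rw [LinearMap.zero_apply, h4 e x hx]
    by_cases hx0 : x = 0
    · rw [hx0, smul_zero]
    obtain ⟨m, hm⟩ := TT_nil hF W hi
    rw [← hκ] at hm
    have h7 : ∀ n : ℕ, (TT F W i κ ^ n) x = e ^ n • x := by
      intro n
      induction n with
      | zero => simp
      | succ n ih =>
        rw [_root_.pow_succ', Module.End.mul_apply, ih, map_smul, h4 e x hx, smul_smul,
          _root_.pow_succ]
    have h8 := h7 m
    rw [hm, LinearMap.zero_apply] at h8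
    have h9 := (smul_eq_zero.1 h8.symm).resolve_right hx0
    have h10 : e = 0 := (pow_eq_zero_iff (fun h0 => by rw [h0] at h9; simp at h9)).1 h9
    rw [h10, zero_smul]
  have h7 : fop (en (F.φ i)) W.w = κ • 1 + X.H.ρ i (SS F W) + TT F W i κ := by
    rw [TT]; abel
  rw [h7, h6, add_zero]

end

end Pool.Agent.U434.HM
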