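import Pool.Agent.U434.HM.Tate

/-!
# Hodge classes are killed by the Lie algebra of the image of the Galois group
-/

set_option autoImplicit false

namespace Pool.Agent.U434.HM

open Module
open Pool.Agent.N184.HK Pool.Agent.U434.PA
open scoped TensorProduct

section

variable {K : Type} [Field K] {ι : Type} [Fintype ι] [DecidableEq ι] {V : ι → Type}
  [∀ a, AddCommGroup (V a)] [∀ a, Module K (V a)]

/-- The commutator of two derivations. -/
lemma der_comm (D D' : ∀ a, Module.End K (V a)) (θ : MultilinearMap K V K) (x : ∀ a, V a) :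
    der D' (derM D θ) x - der D (derM D' θ) x =
      der (fun a => D a * D' a - D' a * D a) θ x := by
  have h1 : ∀ (D D' : ∀ a, Module.End K (V a)), der D' (derM D θ) x =
      ∑ b, ∑ a, θ (Function.update (Function.update x b (D' b (x b))) a
        (D a (Function.update x b (D' b (x b)) a))) := by
    intro D D'
    rw [der]
    refine Finset.sum_congr rfl fun b _ => ?_
    rw [derM_apply, der]
  have h2 : ∀ (D D' : ∀ a, Module.End K (V a)) (b a : ι), a ≠ b →
      θ (Function.update (Function.update x b (D' b (x b))) a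
        (D a (Function.update x b (D' b (x b)) a))) =
      θ (Function.update (Function.update x a (D a (x a))) b
        (D' b (Function.update x a (D a (x a)) b))) := by
    intro D D' b a hab
    rw [Function.update_of_ne hab, Function.update_of_ne hab.symm, Function.update_comm hab]
  have h3 : ∀ (D D' : ∀ a, Module.End K (V a)) (b : ι),
      θ (Function.update (Function.update x b (D' b (x b))) b
        (D b (Function.update x b (D' b (x b)) b))) =
      θ (Function.update x b ((D b * D' b) (x b))) := by
    intro D D' b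
    rw [Function.update_self, Function.update_idem, Module.End.mul_apply]
  rw [h1 D D', h1 D' D, Finset.sum_comm (f := fun b a => θ (Function.update
    (Function.update x b (D b (x b))) a (D' a (Function.update x b (D b (x b)) a)))),
    ← Finset.sum_sub_distrib, der]
  refine Finset.sum_congr rfl fun b _ => ?_
  rw [← Finset.sum_sub_distrib, Finset.sum_eq_single b]
  · rw [h3 D D' b, h3 D' D b, LinearMap.sub_apply, θ.map_update_sub]
  · intro a _ hab
    rw [h2 D D' b a hab, sub_self]
  · intro h
    exact absurd (Finset.mem_univ b) h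

lemma der_add_form (D : ∀ a, Module.End K (V a)) (θ θ' : MultilinearMap K V K) (x : ∀ a, V a) :
    der D (θ + θ') x = der D θ x + der D θ' x := by
  rw [der, der, der, ← Finset.sum_add_distrib]
  rfl

lemma der_smul_form (D : ∀ a, Module.End K (V a)) (c : K) (θ : MultilinearMap K V K)
    (x : ∀ a, V a) : der D (c • θ) x = c * der D θ x := by
  rw [der, der, Finset.mul_sum]
  rfl

end

lemma skew_bracket {K V : Type} [Field K] [AddCommGroup V] [Module K V]
    {q : LinearMap.BilinForm K V} {A B : Module.End K V} (hA : Skew q A) (hB : Skew q B) :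
    Skew q (A * B - B * A) := by
  intro x y
  have h1 := hA (B x) y
  have h2 := hB (A x) y
  have h3 := hA x (B y)
  have h4 := hB x (A y)
  simp only [LinearMap.sub_apply, Module.End.mul_apply, map_sub]
  linear_combination h1 - h2 + h3 - h4

variable {Ω : Type} [Field Ω] [CharZero Ω] [TopologicalSpace Ω] {X : HKFamily Ω} {k : ℕ}

section rational

variable {D : Betti X} {r : Fin k → ℕ}

/-- A Hodge class is killed by the operators `A j`. -/
lemma hodge_kill_A (J : Hodge D) (hr : ∀ a, r a ≤ X.d) {m : ℕ} (hm : ∑ a, r a = 2 * m)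
    {θ : RatForm D r} (h : J.IsHodge r m θ) (j : Fin J.n) (x : ∀ a, D.B.H (r a)) :
    der (fun a => D.B.ρ (r a) (J.A j)) θ x = 0 := by
  obtain ⟨θ', hθ', hH⟩ := h
  -- the Hodge operator
  have h1 : ∀ x, (derM (fun a => J.hodge (r a)) θ' - (m : ℂ) • θ') x = 0 := by
    have key : ∀ (p : Fin k → ℤ) (x : ∀ a, Scal ℂ (D.B.H (r a))),
        (∀ a, J.hodge (r a) (x a) = (p a : ℂ) • x a) →
        (derM (fun a => J.hodge (r a)) θ' - (m : ℂ) • θ') x = 0 := by
      intro p x hx
      rw [MultilinearMap.sub_apply, MultilinearMap.smul_apply, derM_apply,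
        der_scalar _ θ' x (fun a => (p a : ℂ)) hx, smul_eq_mul, ← sub_mul]
      by_cases hp : ∑ a, p a = (m : ℤ)
      · have h2 : ∑ a, (p a : ℂ) = m := by
          have := congrArg (fun n : ℤ => (n : ℂ)) hp
          push_cast at this
          exact this
        rw [h2, sub_self, zero_mul]
      · rw [hH p x hx hp, mul_zero]
    refine multi_span (fun a => {x | ∃ p : ℤ, J.hodge (r a) x = (p : ℂ) • x}) (fun a => ?_) _
      fun x hx => ?_
    · rw [eq_top_iff, ← J.diag (r a) (hr a)]
      refine iSup_le fun p y hy => Submodule.subset_span ⟨p, ?_⟩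
      exact Module.End.mem_eigenspace_iff.1 hy
    · choose p hp using hx
      exact key p x hp
  -- rational vectors
  have h2 := h1 fun a => Scal.of (x a)
  rw [MultilinearMap.sub_apply, MultilinearMap.smul_apply, derM_apply] at h2
  have h3 : (fun a => J.hodge (r a)) = fun a =>
      ((r a : ℂ) / 2) • (1 : Module.End ℂ (Scal ℂ (D.B.H (r a)))) +
        ∑ j, J.z j • Scal.map ℂ (D.B.ρ (r a) (J.A j)) := by
    funext a
    refine LinearMap.ext fun x => ?_
    rw [J.eq (r a) (hr a) x, LinearMap.add_apply, LinearMap.smul_apply, Module.End.one_apply,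
      LinearMap.sum_apply]
    rfl
  have h4 : ∀ j, der (fun a => Scal.map ℂ (D.B.ρ (r a) (J.A j))) θ' (fun a => Scal.of (x a)) =
      algebraMap ℚ ℂ (der (fun a => D.B.ρ (r a) (J.A j)) θ x) := by
    intro j
    rw [der, der, map_sum]
    refine Finset.sum_congr rfl fun a _ => ?_
    rw [← hθ']
    congr 1
    funext b
    by_cases hb : b = a
    · subst hb
      rw [Function.update_self, Function.update_self, map_of]
    · rw [Function.update_of_ne hb, Function.update_of_ne hb]
  have h5 : ∀ (s : Finset (Fin J.n)),
      der (fun a => ∑ j ∈ s, J.z j • Scal.map ℂ (D.B.ρ (r a) (J.A j))) θ'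
        (fun a => Scal.of (x a)) =
      ∑ j ∈ s, J.z j * algebraMap ℚ ℂ (der (fun a => D.B.ρ (r a) (J.A j)) θ x) := by
    intro s
    classical
    induction s using Finset.induction_on with
    | empty =>
      simp only [Finset.sum_empty]
      exact der_zero θ' _
    | insert j s hj ih =>
      simp only [Finset.sum_insert hj]
      rw [der_add, ih, der_smul, h4]
  rw [h3, der_add, h5, der_scalar _ θ' _ (fun a => (r a : ℂ) / 2) fun a => rfl,
    ← Finset.sum_div, sum_half hm, smul_eq_mul] at h2
  have h6 : ∑ j, J.z j * algebraMap ℚ ℂ (der (fun a => D.B.ρ (r a) (J.A j)) θ x) = 0 := by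
    linear_combination h2
  have h7 := Fintype.linearIndependent_iff.1 J.indep
    (fun j => der (fun a => D.B.ρ (r a) (J.A j)) θ x) (by
      rw [← h6]
      refine Finset.sum_congr rfl fun j _ => ?_
      rw [Algebra.smul_def, mul_comm])
  exact h7 j

/-- A Hodge class is killed by the Lie algebra of the Hodge group. -/
lemma hodge_kill (J : Hodge D) (hr : ∀ a, r a ≤ X.d) {m : ℕ} (hm : ∑ a, r a = 2 * m)
    {θ : RatForm D r} (h : J.IsHodge r m θ) {A : Module.End ℚ (D.B.H 2)} (hA : A ∈ J.lie)
    (x : ∀ a, D.B.H (r a)) : der (fun a => D.B.ρ (r a) A) θ x = 0 := by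
  set L : Submodule ℚ (Module.End ℚ (D.B.H 2)) :=
    { carrier := {A | Skew D.B.q A ∧ ∀ x, der (fun a => D.B.ρ (r a) A) θ x = 0}
      add_mem' := by
        rintro A B ⟨hA, hA'⟩ ⟨hB, hB'⟩
        refine ⟨fun x y => ?_, fun x => ?_⟩
        · have h1 := hA x y
          have h2 := hB x y
          simp only [LinearMap.add_apply, map_add]
          linear_combination h1 + h2
        · have h1 : (fun a => D.B.ρ (r a) (A + B)) =
              fun a => D.B.ρ (r a) A + D.B.ρ (r a) B := by
            funext a; exact map_add _ _ _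
          rw [h1, der_add, hA' x, hB' x, add_zero]
      zero_mem' := by
        refine ⟨fun x y => by simp, fun x => ?_⟩
        have h1 : (fun a => D.B.ρ (r a) (0 : Module.End ℚ (D.B.H 2))) = fun a => 0 := by
          funext a; exact map_zero _
        rw [h1, der_zero]
      smul_mem' := by
        rintro c A ⟨hA, hA'⟩
        refine ⟨fun x y => ?_, fun x => ?_⟩
        · have h1 := hA x y
          simp only [LinearMap.smul_apply, map_smul, smul_eq_mul]
          linear_combination c * h1
        · have h1 : (fun a => D.B.ρ (r a) (c • A)) = fun a => c • D.B.ρ (r a) A := by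
            funext a; exact map_smul _ _ _
          rw [h1, der_smul, hA' x, mul_zero] } with hL
  have h1 : J.lie ≤ L := by
    rw [Hodge.lie, lieGen]
    refine sInf_le ⟨fun j => ⟨J.skew j, fun x => hodge_kill_A J hr hm h j x⟩, ?_⟩
    rintro A ⟨hA, hA'⟩ C ⟨hC, hC'⟩
    refine ⟨skew_bracket hA hC, fun x => ?_⟩
    have h2 : (fun a => D.B.ρ (r a) (A * C - C * A)) =
        fun a => D.B.ρ (r a) A * D.B.ρ (r a) C - D.B.ρ (r a) C * D.B.ρ (r a) A := by
      funext a
      exact D.B.bracket (r a) A C hA hC
    have h3 : ∀ {A : Module.End ℚ (D.B.H 2)}, (∀ x, der (fun a => D.B.ρ (r a) A) θ x = 0) →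
        derM (fun a => D.B.ρ (r a) A) θ = 0 := by
      intro A hA
      ext x
      rw [derM_apply, hA x]
      rfl
    rw [h2, ← der_comm (fun a => D.B.ρ (r a) A) (fun a => D.B.ρ (r a) C) θ x, h3 hA', h3 hC',
      der, der]
    simp
  exact (h1 hA).2 x

/-- The combinations of Hodge classes are killed by the Lie algebra of the Hodge group. -/
lemma span_kill (J : Hodge D) (hr : ∀ a, r a ≤ X.d) {m : ℕ} (hm : ∑ a, r a = 2 * m)
    {θ : Form X r} (h : θ ∈ J.span r m) {A : Module.End ℚ (D.B.H 2)} (hA : A ∈ J.lie) :
    D.ext A ∈ kills r θ := by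
  rw [Hodge.span] at h
  induction h using Submodule.span_induction with
  | mem θ hθ =>
    obtain ⟨θ₀, h0, hθ₀⟩ := hθ
    intro x
    rw [← derM_apply]
    refine multi_span (fun a => Set.range fun y : D.B.H (r a) => D.cmp (r a) (Scal.of y))
      (fun a => ?_) _ (fun y hy => ?_) x
    · have h2 := span_of Ω (D.B.H (r a))
      have h3 : (Set.range fun y : D.B.H (r a) => D.cmp (r a) (Scal.of y)) =
          (D.cmp (r a)).toLinearMap '' Set.range fun y : D.B.H (r a) => Scal.of (E := Ω) y := by
        rw [← Set.range_comp]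
        rfl
      rw [h3, Submodule.span_image, h2, Submodule.map_top, LinearMap.range_eq_top]
      exact (D.cmp (r a)).surjective
    · choose y' hy' using hy
      have h2 : y = fun a => D.cmp (r a) (Scal.of (y' a)) := by
        funext a
        exact (hy' a).symm
      rw [h2, derM_apply, der]
      have h3 := congrArg (algebraMap ℚ Ω) (hodge_kill J hr hm h0 hA y')
      rw [der, map_sum, map_zero] at h3
      rw [← h3]
      refine Finset.sum_congr rfl fun a _ => ?_
      rw [← restr_update hr θ A y' a, restr_apply]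
      exact hθ₀ _
  | zero =>
    intro x
    rw [der]
    simp
  | add θ θ' _ _ h1 h2 =>
    intro x
    rw [der_add_form, h1 x, h2 x, add_zero]
  | smul c θ _ h1 =>
    intro x
    rw [der_smul_form, h1 x, mul_zero]

end rational

section

variable [IsAlgClosed Ω]

/-- The combinations of Hodge classes are killed by the Lie algebra of the image of `G`. -/
lemma span_kill_gal {D : Betti X} (J : Hodge D) (hMT : J.MumfordTateTwo) {r : Fin k → ℕ}
    (hr : ∀ a, r a ≤ X.d) {m : ℕ} (hm : ∑ a, r a = 2 * m) {θ : Form X r}
    (h : θ ∈ J.span r m) : galLie X Set.univ ≤ kills r θ := by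
  rw [hMT Set.univ isOpen_univ (Set.mem_univ 1), transferSpan, Submodule.span_le]
  rintro _ ⟨A, hA, rfl⟩
  exact span_kill J hr hm h hA

end

end Pool.Agent.U434.HM
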