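import Pool.Agent.U434.HM.Conv1
import Pool.Agent.N184.HK.P_CTS

/-!
# Polynomials of the action on the forms; torsion; continuity
-/

set_option autoImplicit false

namespace Pool.Agent.U434.HM

open Module Module.End Polynomial
open Pool.Agent.N184.HK Pool.Agent.U434.PA
open scoped TensorProduct

section

variable {K : Type} [Field K] {ι : Type} [Fintype ι] [DecidableEq ι] {V : ι → Type}
  [∀ a, AddCommGroup (V a)] [∀ a, Module K (V a)]

omit [Fintype ι] [DecidableEq ι] in
/-- The forms which vanish on a product of generalized eigenspaces are stable. -/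
lemma pull_vanish {f : ∀ a, Module.End K (V a)} {e : ι → K} {θ : MultilinearMap K V K}
    (h : ∀ x : ∀ a, V a, (∀ a, x a ∈ (f a).maxGenEigenspace (e a)) → θ x = 0) (p : K[X])
    {x : ∀ a, V a} (hx : ∀ a, x a ∈ (f a).maxGenEigenspace (e a)) :
    (aeval (pull f) p θ) x = 0 := by
  have h1 : ∀ (n : ℕ) (x : ∀ a, V a), (∀ a, x a ∈ (f a).maxGenEigenspace (e a)) →
      ((pull f ^ n) θ) x = 0 := by
    intro n
    induction n with
    | zero => exact h
    | succ n ih =>
      intro x hx
      rw [_root_.pow_succ', Module.End.mul_apply, pull_apply]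
      exact ih _ fun a => Module.End.mapsTo_maxGenEigenspace_of_comm (Commute.refl (f a)) (e a)
        (hx a)
  rw [aeval_eq_sum_range, LinearMap.sum_apply, MultilinearMap.sum_apply]
  refine Finset.sum_eq_zero fun n _ => ?_
  rw [LinearMap.smul_apply, MultilinearMap.smul_apply, h1 n x hx, smul_zero]

omit [DecidableEq ι] in
/-- The product of the eigenvalues is a root of the polynomial. -/
lemma root_of_kill {f : ∀ a, Module.End K (V a)} {e : ι → K} {x : ∀ a, V a}
    (hx : ∀ a, x a ∈ (f a).maxGenEigenspace (e a)) {θ : MultilinearMap K V K} {p : K[X]}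
    (hp : aeval (pull f) p θ = 0) (h0 : θ x ≠ 0) : p.eval (∏ a, e a) = 0 := by
  by_contra hne
  refine h0 ?_
  have hk : ∀ a, ∃ k : ℕ, ((f a - e a • (1 : Module.End K (V a))) ^ k) (x a) = 0 := fun a =>
    (Module.End.mem_maxGenEigenspace _ _ _).1 (hx a)
  choose k hk using hk
  set μ := ∏ a, e a with hμ
  set P := pull f with hP
  set M := ∑ a, k a + 1 with hM
  have hcop : IsCoprime p ((X - C μ : K[X]) ^ M) := by
    refine IsCoprime.pow_right ?_
    refine ((irreducible_X_sub_C μ).coprime_iff_not_dvd.2 fun hd => hne ?_).symm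
    exact dvd_iff_isRoot.1 hd
  obtain ⟨A, B, hAB⟩ := hcop
  have h1 : ∀ c : K, aeval P (X - C c : K[X]) =
      P - c • (1 : Module.End K (MultilinearMap K V K)) := by
    intro c
    rw [map_sub, aeval_X, aeval_C]
    rfl
  have h2 := congrArg (fun p => aeval P p θ) hAB
  simp only [map_add, map_mul, map_pow, map_one, h1, LinearMap.add_apply, Module.End.mul_apply,
    hp, map_zero, zero_add, Module.End.one_apply] at h2
  have h3 : aeval P B (((P - μ • (1 : Module.End K (MultilinearMap K V K))) ^ M) θ) =
      ((P - μ • (1 : Module.End K (MultilinearMap K V K))) ^ M) (aeval P B θ) := by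
    rw [← Module.End.mul_apply, ← Module.End.mul_apply]
    congr 1
    rw [← h1, ← map_pow, ← map_mul, ← map_mul, mul_comm]
  rw [h3] at h2
  rw [← h2]
  exact ev_nil f e _ _ k x hk le_rfl

/-- A polynomial whose roots contain the products of the eigenvalues kills the form. -/
lemma kill_of_root [IsAlgClosed K] [∀ a, FiniteDimensional K (V a)]
    {f : ∀ a, Module.End K (V a)} {θ : MultilinearMap K V K} {p : K[X]}
    (h : ∀ (e : ι → K) (x : ∀ a, V a), (∀ a, x a ∈ (f a).maxGenEigenspace (e a)) → θ x ≠ 0 →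
      p.eval (∏ a, e a) = 0) :
    aeval (pull f) (p ^ (∑ a, finrank K (V a) + 1)) θ = 0 := by
  refine MultilinearMap.ext fun x => multi_zero f _ (fun e x hx => ?_) x
  by_cases h1 : ∀ x : ∀ a, V a, (∀ a, x a ∈ (f a).maxGenEigenspace (e a)) → θ x = 0
  · exact pull_vanish h1 _ hx
  push Not at h1
  obtain ⟨y, hy, hy0⟩ := h1
  obtain ⟨q, hq⟩ := dvd_iff_isRoot.2 (h e y hy hy0)
  have h2 : ∀ c : K, aeval (pull f) (X - C c : K[X]) =
      pull f - c • (1 : Module.End K (MultilinearMap K V K)) := by
    intro c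
    rw [map_sub, aeval_X, aeval_C]
    rfl
  rw [hq, mul_pow, map_mul, map_pow, h2, Module.End.mul_apply]
  refine ev_nil f e _ _ (fun a => finrank K (V a)) x (fun a => ?_) le_rfl
  have h3 := hx a
  rw [Module.End.maxGenEigenspace_eq_genEigenspace_finrank, Module.End.mem_genEigenspace_nat,
    LinearMap.mem_ker] at h3
  exact h3

omit [DecidableEq ι] in
/-- The product of the eigenvalues is an eigenvalue of the action on the forms. -/
lemma det_zero {f : ∀ a, Module.End K (V a)} {e : ι → K} {x : ∀ a, V a}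
    [∀ a, FiniteDimensional K (V a)]
    (hx : ∀ a, x a ∈ (f a).maxGenEigenspace (e a)) {θ : MultilinearMap K V K}
    (h0 : θ x ≠ 0) {l : K} (hl : ∏ a, e a = l) :
    LinearMap.det (pull f - l • (1 : Module.End K (MultilinearMap K V K))) = 0 := by
  by_contra hdet
  refine h0 ?_
  have hk : ∀ a, ∃ k : ℕ, ((f a - e a • (1 : Module.End K (V a))) ^ k) (x a) = 0 := fun a =>
    (Module.End.mem_maxGenEigenspace _ _ _).1 (hx a)
  choose k hk using hk
  have hu : IsUnit (pull f - l • (1 : Module.End K (MultilinearMap K V K))) := by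
    rw [LinearMap.isUnit_iff_isUnit_det]
    exact isUnit_iff_ne_zero.2 hdet
  have hu2 := hu.pow (∑ a, k a + 1)
  rw [Module.End.isUnit_iff] at hu2
  obtain ⟨θ', hθ'⟩ := hu2.2 θ
  rw [← hθ', ← hl]
  exact ev_nil f e _ _ k x hk le_rfl

end

section torsion

/-- An element on which the additive functions vanish is a root of unity. -/
lemma torsion_of_addFun {K : Type} [Field K] [CharZero K] {x : K} (hx : x ≠ 0)
    (h : ∀ W : AddFun K, W.w x = 0) : ∃ n : ℕ, 0 < n ∧ x ^ n = 1 := by
  classical
  set G := Additive Kˣ with hG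
  set g : G := Additive.ofMul (Units.mk0 x hx) with hg
  have h1 : TensorProduct.mk ℤ ℚ G 1 g = 0 := by
    rw [← Module.forall_dual_apply_eq_zero_iff ℚ]
    intro φ
    set W : AddFun K :=
      { w := fun y => if hy : y = 0 then 0 else
          algebraMap ℚ K (φ ((1 : ℚ) ⊗ₜ[ℤ] (Additive.ofMul (Units.mk0 y hy) : G)))
        map_mul := by
          intro y z hy hz
          rw [dif_neg hy, dif_neg hz, dif_neg (mul_ne_zero hy hz), ← map_add, ← map_add,
            ← TensorProduct.tmul_add, ← ofMul_mul]
          congr 4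
          ext
          rfl } with hW
    have h2 := h W
    have h3 : W.w x = algebraMap ℚ K (φ ((1 : ℚ) ⊗ₜ[ℤ] g)) := by
      rw [hW]
      exact dif_neg hx
    rw [h3] at h2
    exact (map_eq_zero _).1 h2
  rw [IsLocalizedModule.eq_zero_iff (nonZeroDivisors ℤ)] at h1
  obtain ⟨c, hc⟩ := h1
  have hc0 : (c : ℤ) ≠ 0 := nonZeroDivisors.coe_ne_zero c
  have h2 : x ^ (c : ℤ) = 1 := by
    have h3 : (c : ℤ) • g = 0 := hc
    have h4 := congrArg Additive.toMul h3
    rw [toMul_zsmul, toMul_zero] at h4
    have h5 := congrArg Units.val h4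
    rw [Units.val_zpow_eq_zpow_val, Units.val_one] at h5
    exact h5
  refine ⟨(c : ℤ).natAbs, Int.natAbs_pos.2 hc0, ?_⟩
  rcases Int.natAbs_eq (c : ℤ) with h3 | h3
  · rw [h3, zpow_natCast] at h2
    exact h2
  · rw [h3, zpow_neg, zpow_natCast, inv_eq_one] at h2
    exact h2

end torsion

section roots

/-- A product of roots of integral polynomials which is a root of unity, up to a power of `n`. -/
lemma root_prod {Q : Type} [Field Q] [CharZero Q] {ι : Type} [Fintype ι] (e : ι → Q)
    (P : ι → ℤ[X]) (hP : ∀ a, P a ≠ 0) (he : ∀ a, aeval (e a) (P a) = 0) (n m : ℕ)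
    {N : ℕ} (hN : 0 < N) (h : ((∏ a, e a) / (n : Q) ^ m) ^ N = 1) :
    ((∏ a, e a) / (n : Q) ^ m) ^ (2 * ∏ a, (P a).natDegree).factorial = 1 := by
  classical
  have key : ∀ s : Finset ι, ∃ E : IntermediateField ℚ Q, FiniteDimensional ℚ E ∧
      finrank ℚ E ≤ ∏ a ∈ s, (P a).natDegree ∧ ∏ a ∈ s, e a ∈ E := by
    intro s
    induction s using Finset.induction_on with
    | empty =>
      refine ⟨⊥, inferInstance, ?_, ?_⟩
      · rw [IntermediateField.finrank_bot, Finset.prod_empty]
      · rw [Finset.prod_empty]; exact one_mem _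
    | insert a s ha ih =>
      obtain ⟨E, hE1, hE2, hE3⟩ := ih
      have hPQ : aeval (e a) ((P a).map (Int.castRingHom ℚ)) = 0 := by
        have h1 := he a
        rw [aeval_def] at h1
        rw [aeval_def, eval₂_map, ← h1]
        congr 1
        exact RingHom.ext_int _ _
      have hP0 : (P a).map (Int.castRingHom ℚ) ≠ 0 := by
        rw [Ne, Polynomial.map_eq_zero_iff Int.cast_injective]
        exact hP a
      have hint : IsIntegral ℚ (e a) := by
        rw [← isAlgebraic_iff_isIntegral]
        exact ⟨_, hP0, hPQ⟩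
      have hdeg : finrank ℚ (IntermediateField.adjoin ℚ {e a}) ≤ (P a).natDegree := by
        rw [IntermediateField.adjoin.finrank hint]
        have h1 := natDegree_le_of_dvd (minpoly.dvd ℚ (e a) hPQ) hP0
        rwa [natDegree_map_eq_of_injective Int.cast_injective] at h1
      have : FiniteDimensional ℚ (IntermediateField.adjoin ℚ {e a}) :=
        IntermediateField.adjoin.finiteDimensional hint
      refine ⟨IntermediateField.adjoin ℚ {e a} ⊔ E, inferInstance, ?_, ?_⟩
      · rw [Finset.prod_insert ha]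
        exact (IntermediateField.finrank_sup_le _ _).trans (Nat.mul_le_mul hdeg hE2)
      · rw [Finset.prod_insert ha]
        exact mul_mem (SetLike.le_def.mp le_sup_left
          (IntermediateField.mem_adjoin_simple_self ℚ (e a))) (SetLike.le_def.mp le_sup_right hE3)
  obtain ⟨E, hE1, hE2, hE3⟩ := key Finset.univ
  set θ := (∏ a, e a) / (n : Q) ^ m with hθ
  have hθE : θ ∈ E := div_mem hE3 (pow_mem (natCast_mem E n) m)
  have hmin := IntermediateField.minpoly_eq (K := ℚ) (S := E) (⟨_, hθE⟩ : E)
  have hB : (minpoly ℚ θ).natDegree ≤ ∏ a, (P a).natDegree := by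
    have e' : minpoly ℚ θ = _ := hmin.symm
    rw [e']
    exact (minpoly.natDegree_le _).trans hE2
  have hfin : IsOfFinOrder θ := isOfFinOrder_iff_pow_eq_one.2 ⟨N, hN, h⟩
  obtain ⟨k, hk⟩ : ∃ k, k = orderOf θ := ⟨_, rfl⟩
  have hk0 : 0 < k := by rw [hk]; exact hfin.orderOf_pos
  have hprim : IsPrimitiveRoot θ k := by rw [hk]; exact IsPrimitiveRoot.orderOf θ
  have h4 := cyclotomic_eq_minpoly_rat hprim hk0
  have h5 : k.totient ≤ ∏ a, (P a).natDegree := by
    rw [← natDegree_cyclotomic k ℚ, h4]
    exact hB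
  obtain ⟨c, hc⟩ := P_ROOT.dvd_fact k _ hk0 h5
  rw [hc, pow_mul, hprim.pow_eq_one, one_pow]

end roots

section cts

variable {K : Type} [Field K] [TopologicalSpace K] [IsTopologicalRing K] {Γ : Type}
  [TopologicalSpace Γ]

/-- A multilinear form of continuous families of vectors is continuous. -/
lemma cont_multi {ι : Type} [Fintype ι] [DecidableEq ι] {W : ι → Type}
    [∀ a, AddCommGroup (W a)] [∀ a, Module K (W a)] [∀ a, FiniteDimensional K (W a)]
    (T : MultilinearMap K W K) {w : Γ → ∀ a, W a}
    (hw : ∀ a (L : Module.Dual K (W a)), Continuous fun σ => L (w σ a)) :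
    Continuous fun σ => T (w σ) := by
  set b : ∀ a, Basis (Fin (finrank K (W a))) K (W a) := fun a => finBasis K (W a) with hb
  have h1 : (fun σ => T (w σ)) = fun σ => ∑ f : ∀ a, Fin (finrank K (W a)),
      (∏ a, (b a).coord (f a) (w σ a)) * T fun a => b a (f a) := by
    funext σ
    have h2 : w σ = fun a => ∑ j, (b a).repr (w σ a) j • b a j := by
      funext a
      exact ((b a).sum_repr (w σ a)).symm
    conv_lhs => rw [h2]
    rw [T.map_sum]
    refine Finset.sum_congr rfl fun f _ => ?_
    rw [T.map_smul_univ (fun a => (b a).repr (w σ a) (f a)) (fun a => b a (f a)), smul_eq_mul]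
    rfl
  rw [h1]
  refine continuous_finsetSum _ fun f _ => Continuous.mul ?_ continuous_const
  exact continuous_finsetProd _ fun a _ => hw a _

variable {ι : Type} [Fintype ι] [DecidableEq ι] {V : ι → Type}
  [∀ a, AddCommGroup (V a)] [∀ a, Module K (V a)] [∀ a, FiniteDimensional K (V a)]

lemma cts_pull {f : Γ → ∀ a, Module.End K (V a)} (hf : ∀ a, Cts fun σ => f σ a) :
    Cts fun σ => pull (f σ) := by
  intro L
  have h1 : (fun σ => L (pull (f σ))) = fun σ =>
      (L.compMultilinearMap (MultilinearMap.compLinearMapMultilinear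
        (R := K) (M₁ := V) (M₁' := V) (M₂ := K))) (f σ) := by
    funext σ
    rfl
  rw [h1]
  exact cont_multi _ fun a L => hf a L

variable {H : Type} [AddCommGroup H] [Module K H] [FiniteDimensional K H]

omit [FiniteDimensional K H] [IsTopologicalRing K] in
lemma cts_const (A : Module.End K H) : Cts fun _ : Γ => A := fun _ => continuous_const

lemma cts_mul {g h : Γ → Module.End K H} (hg : Cts g) (hh : Cts h) :
    Cts fun σ => g σ * h σ := (t_cts K H Γ g h hg hh).1

lemma cts_pow {g : Γ → Module.End K H} (hg : Cts g) (n : ℕ) : Cts fun σ => g σ ^ n := by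
  induction n with
  | zero =>
    simp only [pow_zero]
    exact cts_const 1
  | succ n ih =>
    simp only [_root_.pow_succ]
    exact cts_mul ih hg

omit [FiniteDimensional K H] in
lemma cts_sub {g h : Γ → Module.End K H} (hg : Cts g) (hh : Cts h) :
    Cts fun σ => g σ - h σ := fun L => by
  simp only [map_sub]
  exact (hg L).sub (hh L)

omit [FiniteDimensional K H] in
lemma cts_smul {c : Γ → K} {g : Γ → Module.End K H} (hc : Continuous c) (hg : Cts g) :
    Cts fun σ => c σ • g σ := fun L => by
  simp only [map_smul, smul_eq_mul]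
  exact hc.mul (hg L)

lemma cts_det {g : Γ → Module.End K H} (hg : Cts g) :
    Continuous fun σ => LinearMap.det (g σ) := (t_cts K H Γ g g hg hg).2

end cts

end Pool.Agent.U434.HM
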