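import Pool.Agent.U434.HM.Conv2

/-!
# Hodge classes are generalized Tate classes
-/

set_option autoImplicit false

namespace Pool.Agent.U434.HM

open Module Module.End Polynomial
open Pool.Agent.N184.HK Pool.Agent.U434.PA
open scoped TensorProduct

section

variable {Ω : Type} [Field Ω] [CharZero Ω] [IsAlgClosed Ω] [TopologicalSpace Ω]
  [IsTopologicalRing Ω] [T2Space Ω] {X : HKFamily Ω} {k : ℕ} {D : Betti X}

/-- The exponent of the roots of unity. -/
noncomputable def expo (X : HKFamily Ω) (r : Fin k → ℕ) : ℕ :=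
  (2 * ∏ a, finrank Ω (X.H.H (r a))).factorial

omit [CharZero Ω] [IsAlgClosed Ω] [IsTopologicalRing Ω] [T2Space Ω] in
lemma chi_ne (c : Cyclotomic X) (σ : X.G) : c.χ σ ≠ 0 := fun h0 =>
  (X.F σ).μ_ne (by rw [← c.sq σ, h0]; ring)

/-- The product of the eigenvalues is a root of unity, up to the Tate twist. -/
lemma torsion {r : Fin k → ℕ} (hr : ∀ a, r a ≤ X.d) {m : ℕ} (hm : ∑ a, r a = 2 * m)
    (c : Cyclotomic X) {θ : Form X r} (h : galLie X Set.univ ≤ kills r θ) (σ : X.G)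
    {e : Fin k → Ω} {x : ∀ a, X.H.H (r a)}
    (hx : ∀ a, x a ∈ (en ((X.F σ).φ (r a))).maxGenEigenspace (e a)) (h0 : θ x ≠ 0) :
    ∃ N : ℕ, 0 < N ∧ ((∏ a, e a) / c.χ σ ^ m) ^ N = 1 := by
  have hx0 : ∀ a, x a ≠ 0 := fun a h => h0 (θ.map_coord_zero a h)
  have he : ∀ a, e a ≠ 0 := fun a => root_ne (φ := (X.F σ).φ (r a)) (ne_bot_iff.1 fun h => hx0 a (by
    have := hx a
    rw [h, Submodule.mem_bot] at this
    exact this))
  have hχ := pow_ne_zero m (chi_ne c σ)
  have hp : ∏ a, e a ≠ 0 := Finset.prod_ne_zero_iff.2 fun a _ => he a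
  refine torsion_of_addFun (div_ne_zero hp hχ) fun W => ?_
  have h1 : der (fun a => X.H.ρ (r a) (SS (X.F σ) W)) θ x = 0 :=
    h (Submodule.subset_span ⟨σ, Set.mem_univ σ, W, rfl⟩) x
  have h2 := der_SS hr hm c σ W θ x
  rw [h1, add_zero, der_scalar _ θ x (fun a => W.w (e a)) fun a => fop_apply _ (hx a)] at h2
  have h3 : W.w (∏ a, e a) = ∑ a, W.w (e a) := by
    have h4 := W.prod (s := Finset.univ.val.map e) (fun y hy => by
      obtain ⟨a, -, rfl⟩ := Multiset.mem_map.1 hy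
      exact he a)
    rw [Multiset.map_map] at h4
    exact h4
  rw [← h3] at h2
  rw [div_eq_mul_inv, W.map_mul _ _ hp (inv_ne_zero hχ), W.inv hχ, mul_right_cancel₀ h0 h2,
    add_neg_cancel]

omit [CharZero Ω] [IsAlgClosed Ω] [TopologicalSpace Ω] [IsTopologicalRing Ω] [T2Space Ω] in
lemma aeval_p {V : Type} [AddCommGroup V] [Module Ω V] (A : Module.End Ω V) (M N : ℕ) (c : Ω) :
    aeval A ((Polynomial.X ^ M - C c : Polynomial Ω) ^ N) = (A ^ M - c • (1 : Module.End Ω V)) ^ N := by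
  rw [map_pow, map_sub, map_pow, aeval_X, aeval_C]
  rfl

omit [CharZero Ω] [IsAlgClosed Ω] [IsTopologicalRing Ω] [T2Space Ω] in
lemma root_iff {m M : ℕ} (c : Cyclotomic X) (σ : X.G) (y : Ω) :
    (y / c.χ σ ^ m) ^ M = 1 ↔ y ^ M - c.χ σ ^ (m * M) = 0 := by
  rw [div_pow, ← pow_mul, div_eq_one_iff_eq (pow_ne_zero _ (chi_ne c σ)), sub_eq_zero]

lemma frob_root {r : Fin k → ℕ} (hr : ∀ a, r a ≤ X.d) {m : ℕ} (hm : ∑ a, r a = 2 * m)
    (c : Cyclotomic X) {θ : Form X r} (h : galLie X Set.univ ≤ kills r θ) {s : X.P} {σ : X.G}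
    (hσ : σ ∈ X.Frob s) {e : Fin k → Ω} {x : ∀ a, X.H.H (r a)}
    (hx : ∀ a, x a ∈ (en ((X.F σ).φ (r a))).maxGenEigenspace (e a)) (h0 : θ x ≠ 0) :
    ((∏ a, e a) / c.χ σ ^ m) ^ expo X r = 1 := by
  obtain ⟨N, hN, hN1⟩ := torsion hr hm c h σ hx h0
  have hx0 : ∀ a, x a ≠ 0 := fun a h => h0 (θ.map_coord_zero a h)
  have hc : ∀ a, (en ((X.F σ).φ (r a))).charpoly =
      (X.poly s (r a)).map (Int.castRingHom Ω) := fun a => X.frobPoly s σ hσ (r a) (hr a)
  have hP : ∀ a, X.poly s (r a) ≠ 0 := fun a h1 => by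
    have h2 := hc a
    rw [h1, Polynomial.map_zero] at h2
    exact (LinearMap.charpoly_monic (en ((X.F σ).φ (r a)))).ne_zero h2
  have hdeg : ∀ a, (X.poly s (r a)).natDegree = finrank Ω (X.H.H (r a)) := fun a => by
    have h2 := congrArg natDegree (hc a)
    rw [LinearMap.charpoly_natDegree, natDegree_map_eq_of_injective (RingHom.injective_int _)] at h2
    exact h2.symm
  have he : ∀ a, aeval (e a) (X.poly s (r a)) = 0 := fun a => by
    have h1 : e a ∈ (en ((X.F σ).φ (r a))).charpoly.roots := ne_bot_iff.1 fun h => hx0 a (by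
      have := hx a
      rw [h, Submodule.mem_bot] at this
      exact this)
    rw [mem_roots (LinearMap.charpoly_monic _).ne_zero, hc a, IsRoot.def, eval_map] at h1
    rw [aeval_def, ← h1]
    congr 1
  have h1 := root_prod e (fun a => X.poly s (r a)) hP he (X.norm s) m hN (by
    rw [← c.frob s σ hσ]; exact hN1)
  rw [← c.frob s σ hσ] at h1
  simp only [hdeg] at h1
  exact h1

omit [CharZero Ω] [IsAlgClosed Ω] [T2Space Ω] in
lemma cts_act (r : Fin k → ℕ) : Cts fun σ => act X r σ :=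
  cts_pull (f := fun σ a => en ((X.F σ).φ (r a))) fun a => X.cont (r a)

lemma all_root {r : Fin k → ℕ} (hr : ∀ a, r a ≤ X.d) {m : ℕ} (hm : ∑ a, r a = 2 * m)
    (c : Cyclotomic X) {θ : Form X r} (h : galLie X Set.univ ≤ kills r θ) (σ : X.G)
    {e : Fin k → Ω} {x : ∀ a, X.H.H (r a)}
    (hx : ∀ a, x a ∈ (en ((X.F σ).φ (r a))).maxGenEigenspace (e a)) (h0 : θ x ≠ 0) :
    ((∏ a, e a) / c.χ σ ^ m) ^ expo X r = 1 := by
  set M := expo X r with hM
  set N := ∑ a, finrank Ω (X.H.H (r a)) + 1 with hN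
  have hfrob : ∀ s, ∀ σ ∈ X.Frob s,
      ((act X r σ ^ M - c.χ σ ^ (m * M) • (1 : Module.End Ω (Form X r))) ^ N) θ = 0 := by
    intro s σ hσ
    rw [← aeval_p]
    refine kill_of_root (f := fun a => en ((X.F σ).φ (r a))) fun e x hx h0 => ?_
    rw [eval_sub, eval_pow, eval_X, eval_C]
    exact (root_iff c σ _).1 (frob_root hr hm c h hσ hx h0)
  have hall : ∀ σ : X.G,
      ((act X r σ ^ M - c.χ σ ^ (m * M) • (1 : Module.End Ω (Form X r))) ^ N) θ = 0 := by
    intro σ
    refine MultilinearMap.ext fun x => ?_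
    set L : Module.End Ω (Form X r) →ₗ[Ω] Ω :=
      { toFun := fun B => B θ x
        map_add' := fun B C => rfl
        map_smul' := fun c B => rfl } with hL
    have h1 : Cts fun σ => (act X r σ ^ M - c.χ σ ^ (m * M) • (1 : Module.End Ω (Form X r))) ^ N :=
      cts_pow (cts_sub (cts_pow (cts_act r) M) (cts_smul (c.cont.pow _) (cts_const 1))) N
    have h2 := h1 L
    have h3 : (fun σ => L ((act X r σ ^ M - c.χ σ ^ (m * M) •
        (1 : Module.End Ω (Form X r))) ^ N)) = fun _ => 0 := by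
      refine h2.ext_on X.dense continuous_const ?_
      intro σ hσ
      obtain ⟨s, hs⟩ := Set.mem_iUnion.1 hσ
      change ((act X r σ ^ M - c.χ σ ^ (m * M) • (1 : Module.End Ω (Form X r))) ^ N) θ x = 0
      rw [hfrob s σ hs]
      rfl
    exact congrFun h3 σ
  have h1 := hall σ
  rw [← aeval_p] at h1
  have h2 := root_of_kill (f := fun a => en ((X.F σ).φ (r a))) hx h1 h0
  rw [eval_pow, eval_sub, eval_pow, eval_X, eval_C, pow_eq_zero_iff (Nat.succ_ne_zero _)] at h2
  exact (root_iff c σ _).2 h2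

omit [CharZero Ω] [IsAlgClosed Ω] [IsTopologicalRing Ω] [T2Space Ω] in
lemma act_one (r : Fin k → ℕ) : act X r 1 = 1 := by
  refine LinearMap.ext fun θ => MultilinearMap.ext fun x => ?_
  rw [act, pull_apply, Module.End.one_apply]
  congr 1
  funext a
  have h1 := X.E.mul 1 1 (r a)
  rw [mul_one] at h1
  have h2 := congrArg (fun f : X.H.H (r a) ≃ₗ[Ω] X.H.H (r a) => f (x a)) h1
  change (X.F 1).φ (r a) (x a) = (X.F 1).φ (r a) ((X.F 1).φ (r a) (x a)) at h2
  exact (((X.F 1).φ (r a)).injective h2).symm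

/-- The combinations of Hodge classes are generalized Tate classes. -/
theorem hodge_tate (c : Cyclotomic X) (J : Hodge D) (hMT : J.MumfordTateTwo)
    {r : Fin k → ℕ} (hr : ∀ a, r a ≤ X.d) {m : ℕ} (hm : ∑ a, r a = 2 * m)
    {θ : Form X r} (h : θ ∈ J.span r m) : c.IsGenTate r m θ := by
  classical
  have hk := span_kill_gal J hMT hr hm h
  set M := expo X r with hM
  set S : Finset Ω := (nthRoots M (1 : Ω)).toFinset.erase 1 with hS
  set O : Set X.G := ⋂ ζ ∈ S, {σ | LinearMap.det (act X r σ -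
    (ζ * c.χ σ ^ m) • (1 : Module.End Ω (Form X r))) ≠ 0} with hO
  refine ⟨O, ?_, ?_, ?_⟩
  · refine isOpen_biInter_finset fun ζ _ => ?_
    have h1 : Continuous fun σ => LinearMap.det (act X r σ -
        (ζ * c.χ σ ^ m) • (1 : Module.End Ω (Form X r))) :=
      cts_det (cts_sub (cts_act r) (cts_smul (continuous_const.mul (c.cont.pow m)) (cts_const 1)))
    exact isOpen_compl_singleton.preimage h1
  · refine Set.mem_iInter₂.2 fun ζ hζ => ?_
    have hζ1 : ζ ≠ 1 := Finset.ne_of_mem_erase hζ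
    rw [Set.mem_ofPred_eq, act_one, c.one, one_pow, mul_one]
    have h1 : (1 : Module.End Ω (Form X r)) - ζ • (1 : Module.End Ω (Form X r)) =
        (1 - ζ) • (1 : Module.End Ω (Form X r)) := by
      refine LinearMap.ext fun θ => MultilinearMap.ext fun x => ?_
      change θ x - ζ * θ x = (1 - ζ) * θ x
      ring
    rw [h1, LinearMap.det_smul, map_one, mul_one]
    exact pow_ne_zero _ (sub_ne_zero.2 hζ1.symm)
  · intro σ hσ
    refine ⟨∑ a, finrank Ω (X.H.H (r a)) + 1, ?_⟩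
    have h1 := kill_of_root (f := fun a => en ((X.F σ).φ (r a))) (θ := θ)
      (p := (Polynomial.X ^ 1 - C (c.χ σ ^ m) : Polynomial Ω)) (fun e x hx h0 => ?_)
    · rw [aeval_p, pow_one] at h1
      exact h1
    · rw [eval_sub, eval_pow, eval_X, eval_C, pow_one]
      have hroot := all_root hr hm c hk σ hx h0
      by_cases h2 : (∏ a, e a) / c.χ σ ^ m = 1
      · rw [div_eq_one_iff_eq (pow_ne_zero _ (chi_ne c σ))] at h2
        rw [h2, sub_self]
      · exfalso
        have h3 : (∏ a, e a) / c.χ σ ^ m ∈ S := by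
          rw [hS, Finset.mem_erase, Multiset.mem_toFinset, mem_nthRoots (show 0 < M from Nat.factorial_pos _)]
          exact ⟨h2, hroot⟩
        have h4 := Set.mem_iInter₂.1 hσ _ h3
        refine h4 (det_zero (f := fun a => en ((X.F σ).φ (r a))) hx h0 ?_)
        rw [div_mul_cancel₀ _ (pow_ne_zero _ (chi_ne c σ))]

end

end Pool.Agent.U434.HM
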