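import Pool.Agent.U434.HM.Conv3

/-!
# Hodge classes are Tate classes
-/

set_option autoImplicit false

namespace Pool.Agent.U434.HM

open Module Module.End Polynomial
open Pool.Agent.N184.HK Pool.Agent.U434.PA
open scoped TensorProduct

section

variable {K H : Type} [Field K] [AddCommGroup H] [Module K H]

lemma adE_gen {φ : H ≃ₗ[K] H} {f : Module.End K H} {e : K} {x : H}
    (hx : x ∈ (adE φ f).maxGenEigenspace e) : φ.symm x ∈ f.maxGenEigenspace e := by
  rw [Module.End.mem_maxGenEigenspace] at hx ⊢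
  obtain ⟨k, hk⟩ := hx
  refine ⟨k, ?_⟩
  have h1 : ∀ (k : ℕ) (y : H), ((adE φ f - e • 1) ^ k) (φ y) = φ (((f - e • 1) ^ k) y) := by
    intro k
    induction k with
    | zero => intro y; rfl
    | succ k ih =>
      intro y
      rw [_root_.pow_succ, _root_.pow_succ, Module.End.mul_apply, Module.End.mul_apply, ← ih]
      congr 1
      change adE φ f (φ y) - e • φ y = φ (f y - e • y)
      rw [adE_apply, map_sub, map_smul]
  have h2 := h1 k (φ.symm x)
  rw [LinearEquiv.apply_symm_apply, hk] at h2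
  exact (map_eq_zero_iff φ φ.injective).1 h2.symm

lemma fop_adE [IsAlgClosed K] [FiniteDimensional K H] (φ : H ≃ₗ[K] H) (f : Module.End K H)
    (w : K → K) : fop (adE φ f) w = adE φ (fop f w) := by
  refine ext_gen (adE φ f) fun e x hx => ?_
  rw [fop_apply w hx]
  have h1 := fop_apply w (adE_gen hx)
  have h2 := adE_apply φ (fop f w) (φ.symm x)
  rw [LinearEquiv.apply_symm_apply, h1, map_smul, LinearEquiv.apply_symm_apply] at h2
  exact h2.symm

lemma adE_one (φ : H ≃ₗ[K] H) : adE φ (1 : Module.End K H) = 1 := by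
  ext x
  have h := adE_apply φ (1 : Module.End K H) (φ.symm x)
  rw [LinearEquiv.apply_symm_apply] at h
  rw [h]
  simp

end

variable {Ω : Type} [Field Ω] [CharZero Ω] [TopologicalSpace Ω] {X : HKFamily Ω} {k : ℕ}

omit [CharZero Ω] in
lemma en_mul (σ τ : X.G) (i : ℕ) :
    en ((X.F (σ * τ)).φ i) = en ((X.F σ).φ i) * en ((X.F τ).φ i) := by
  rw [X.E.mul σ τ i]
  rfl

omit [CharZero Ω] in
lemma phi_one (i : ℕ) (x : X.H.H i) : (X.F 1).φ i x = x := by
  have h1 := X.E.mul 1 1 i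
  rw [mul_one] at h1
  have h2 := congrArg (fun f : X.H.H i ≃ₗ[Ω] X.H.H i => f x) h1
  change (X.F 1).φ i x = (X.F 1).φ i ((X.F 1).φ i x) at h2
  exact (((X.F 1).φ i).injective h2).symm

omit [CharZero Ω] in
lemma phi_mul (σ τ : X.G) (i : ℕ) (x : X.H.H i) :
    (X.F (σ * τ)).φ i x = (X.F σ).φ i ((X.F τ).φ i x) :=
  congrArg (fun f : X.H.H i ≃ₗ[Ω] X.H.H i => f x) (X.E.mul σ τ i)

omit [CharZero Ω] in
lemma en_conj (σ τ : X.G) (i : ℕ) :
    en ((X.F (σ * τ * σ⁻¹)).φ i) = adE ((X.F σ).φ i) (en ((X.F τ).φ i)) := by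
  refine LinearMap.ext fun x => ?_
  obtain ⟨y, rfl⟩ := ((X.F σ).φ i).surjective x
  rw [adE_apply]
  change (X.F (σ * τ * σ⁻¹)).φ i ((X.F σ).φ i y) = (X.F σ).φ i ((X.F τ).φ i y)
  rw [← phi_mul, ← phi_mul, mul_assoc, inv_mul_cancel, mul_one]

omit [CharZero Ω] in
lemma mu_conj (σ τ : X.G) : (X.F (σ * τ * σ⁻¹)).μ = (X.F τ).μ := by
  have hne : ∃ x y, X.H.q x y ≠ 0 := by
    by_contra hcon
    push Not at hcon
    have h3 := X.H.dim3
    have : Nontrivial (X.H.H 2) := Module.nontrivial_of_finrank_pos (R := Ω) (by omega)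
    obtain ⟨x, hx⟩ := exists_ne (0 : X.H.H 2)
    exact hx (X.H.nondeg.1 x fun y => hcon x y)
  obtain ⟨x, y, hxy⟩ := hne
  obtain ⟨x', rfl⟩ := ((X.F σ).φ 2).surjective x
  obtain ⟨y', rfl⟩ := ((X.F σ).φ 2).surjective y
  have h1 := (X.F (σ * τ * σ⁻¹)).similar ((X.F σ).φ 2 x') ((X.F σ).φ 2 y')
  have h2 : ∀ z, (X.F (σ * τ * σ⁻¹)).φ 2 ((X.F σ).φ 2 z) = (X.F σ).φ 2 ((X.F τ).φ 2 z) := by
    intro z
    rw [← phi_mul, ← phi_mul, mul_assoc, inv_mul_cancel, mul_one]
  rw [h2, h2, (X.F σ).similar, (X.F τ).similar] at h1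
  rw [(X.F σ).similar] at hxy h1
  refine mul_right_cancel₀ hxy ?_
  rw [← h1]
  ring

omit [CharZero Ω] in
lemma der_act (r : Fin k → ℕ) (σ : X.G) (D : ∀ a, Module.End Ω (X.H.H (r a))) (θ : Form X r)
    (x : ∀ a, X.H.H (r a)) : der D (act X r σ θ) x =
      der (fun a => adE ((X.F σ).φ (r a)) (D a)) θ (fun a => (X.F σ).φ (r a) (x a)) := by
  rw [der, der]
  refine Finset.sum_congr rfl fun a _ => ?_
  rw [act, pull_apply]
  congr 1
  funext b
  by_cases hb : b = a
  · subst hb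
    rw [Function.update_self, Function.update_self, adE_apply]
    rfl
  · rw [Function.update_of_ne hb, Function.update_of_ne hb]
    rfl

section

variable [IsAlgClosed Ω]

omit [CharZero Ω] in
lemma SS_conj (σ τ : X.G) (W : AddFun Ω) :
    SS (X.F (σ * τ * σ⁻¹)) W = adE ((X.F σ).φ 2) (SS (X.F τ) W) := by
  rw [SS, SS, en_conj, fop_adE, mu_conj, map_sub, map_smul, adE_one]

/-- The forms which are killed by the Lie algebra of the image of `G`. -/
noncomputable def killed (r : Fin k → ℕ) : Submodule Ω (Form X r) where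
  carrier := {θ | galLie X Set.univ ≤ kills r θ}
  add_mem' := by
    intro θ θ' h h' A hA x
    rw [der_add_form, h hA x, h' hA x, add_zero]
  zero_mem' := by
    intro A _ x
    rw [der]
    simp
  smul_mem' := by
    intro c θ h A hA x
    rw [der_smul_form, h hA x, mul_zero]

omit [CharZero Ω] in
lemma killed_act {r : Fin k → ℕ} (σ : X.G) {θ : Form X r} (h : θ ∈ killed r) :
    act X r σ θ ∈ killed r := by
  change galLie X Set.univ ≤ kills r _
  rw [galLie, Submodule.span_le]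
  rintro _ ⟨τ, -, W, rfl⟩ x
  rw [der_act]
  have h1 : (fun a => adE ((X.F σ).φ (r a)) (X.H.ρ (r a) (SS (X.F τ) W))) =
      fun a => X.H.ρ (r a) (SS (X.F (σ * τ * σ⁻¹)) W) := by
    funext a
    rw [(X.F σ).hc, SS_conj]
  rw [h1]
  exact h (Submodule.subset_span ⟨σ * τ * σ⁻¹, Set.mem_univ _, W, rfl⟩) _

end

section

variable [IsAlgClosed Ω] [IsTopologicalRing Ω] [T2Space Ω] {D : Betti X}

/-- The elements of a neighbourhood of the identity act unipotently on the forms which are killed by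
the Lie algebra of the image of `G`. -/
theorem exists_open (c : Cyclotomic X) {r : Fin k → ℕ} (hr : ∀ a, r a ≤ X.d) {m : ℕ}
    (hm : ∑ a, r a = 2 * m) : ∃ O : Set X.G, IsOpen O ∧ 1 ∈ O ∧ ∀ σ ∈ O, ∀ θ ∈ killed (X := X) r,
      ∃ N : ℕ, ((act X r σ - c.χ σ ^ m • (1 : Module.End Ω (Form X r))) ^ N) θ = 0 := by
  classical
  set M := expo X r with hM
  set S : Finset Ω := (nthRoots M (1 : Ω)).toFinset.erase 1 with hS
  set O : Set X.G := ⋂ ζ ∈ S, {σ | LinearMap.det (act X r σ -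
    (ζ * c.χ σ ^ m) • (1 : Module.End Ω (Form X r))) ≠ 0} with hO
  refine ⟨O, ?_, ?_, ?_⟩
  · refine isOpen_biInter_finset fun ζ _ => ?_
    have h1 : Continuous fun σ => LinearMap.det (act X r σ -
        (ζ * c.χ σ ^ m) • (1 : Module.End Ω (Form X r))) :=
      cts_det (cts_sub (cts_act r) (cts_smul (continuous_const.mul (c.cont.pow m)) (cts_const 1)))
    exact isOpen_compl_singleton.preimage h1
  · refine Set.mem_iInter₂.2 fun ζ hζ => ?_
    have hζ1 : ζ ≠ 1 := Finset.ne_of_mem_erase hζ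
    rw [Set.mem_ofPred_eq, act_one, c.one, one_pow, mul_one]
    have h1 : (1 : Module.End Ω (Form X r)) - ζ • (1 : Module.End Ω (Form X r)) =
        (1 - ζ) • (1 : Module.End Ω (Form X r)) := by
      refine LinearMap.ext fun θ => MultilinearMap.ext fun x => ?_
      change θ x - ζ * θ x = (1 - ζ) * θ x
      ring
    rw [h1, LinearMap.det_smul, map_one, mul_one]
    exact pow_ne_zero _ (sub_ne_zero.2 hζ1.symm)
  · intro σ hσ θ hk
    refine ⟨∑ a, finrank Ω (X.H.H (r a)) + 1, ?_⟩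
    have h1 := kill_of_root (f := fun a => en ((X.F σ).φ (r a))) (θ := θ)
      (p := (Polynomial.X ^ 1 - C (c.χ σ ^ m) : Polynomial Ω)) (fun e x hx h0 => ?_)
    · rw [aeval_p, pow_one] at h1
      exact h1
    · rw [eval_sub, eval_pow, eval_X, eval_C, pow_one]
      have hroot := all_root hr hm c hk σ hx h0
      by_cases h2 : (∏ a, e a) / c.χ σ ^ m = 1
      · rw [div_eq_one_iff_eq (pow_ne_zero _ (chi_ne c σ))] at h2
        rw [h2, sub_self]
      · exfalso
        have h3 : (∏ a, e a) / c.χ σ ^ m ∈ S := by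
          rw [hS, Finset.mem_erase, Multiset.mem_toFinset,
            mem_nthRoots (show 0 < M from Nat.factorial_pos _)]
          exact ⟨h2, hroot⟩
        have h4 := Set.mem_iInter₂.1 hσ _ h3
        refine h4 (det_zero (f := fun a => en ((X.F σ).φ (r a))) hx h0 ?_)
        rw [div_mul_cancel₀ _ (pow_ne_zero _ (chi_ne c σ))]

omit [CharZero Ω] [IsAlgClosed Ω] [IsTopologicalRing Ω] [T2Space Ω] in
lemma Cyclotomic.IsTate.gen {c : Cyclotomic X} {r : Fin k → ℕ} {m : ℕ} {θ : Form X r}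
    (h : c.IsTate r m θ) : c.IsGenTate r m θ := by
  obtain ⟨O, hO, h1, h2⟩ := h
  refine ⟨O, hO, h1, fun σ hσ => ⟨1, ?_⟩⟩
  rw [pow_one, LinearMap.sub_apply, h2 σ hσ]
  exact sub_self _

/-- The Tate classes are the combinations of the Hodge classes. -/
theorem tate_iff (c : Cyclotomic X) (hc : c.Arithmetic) (J : Hodge D) (hMT : J.MumfordTateTwo)
    {r : Fin k → ℕ} (hr : ∀ a, r a ≤ X.d) {m : ℕ} (hm : ∑ a, r a = 2 * m) (θ : Form X r) :
    c.IsTate r m θ ↔ θ ∈ J.span r m := by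
  refine ⟨fun h => tate_hodge c J hMT hr hm h.gen, fun h => ?_⟩
  obtain ⟨O, hO, h1, h2⟩ := exists_open (X := X) c hr hm
  obtain ⟨U, hU, hUO⟩ := hc.small O hO h1
  refine ⟨U, hU, U.one_mem, fun σ hσ => ?_⟩
  exact hc.unip r m hr U (killed r) hU (fun σ _ θ hθ => killed_act σ hθ)
    (fun σ hσ θ hθ => h2 σ (hUO hσ) θ hθ) σ hσ θ (span_kill_gal J hMT hr hm h)

end

end Pool.Agent.U434.HM
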