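import Pool.Agent.U434.HM.Ext

/-!
# The Mumford-Tate conjecture for hyperkähler varieties: definitions

The variety `X` and its `ℓ`-adic cohomology are given by `X : HKFamily Ω` (`U434.PA.Defs`): `X` is a
projective hyperkähler variety over a finitely generated field `k` of characteristic zero, for example
a number field, the generic fibre of a smooth projective family over a scheme `S` with function field
`k` (for a number field an open subscheme of the spectrum of the ring of integers). The group `G = X.G`
is the fundamental group of `S`, through which the absolute Galois group of `k` acts on the cohomology.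
The coefficients `Ω` are an algebraic closure of `ℚ_ℓ`.
-/

set_option autoImplicit false

namespace Pool.Agent.U434.HM

open Module
open Pool.Agent.N184.HK Pool.Agent.U434.PA

section general

variable {E : Type} [Field E] [CharZero E] {V V₂ W W₂ : Type} [AddCommGroup V] [Module ℚ V]
  [AddCommGroup V₂] [Module ℚ V₂] [AddCommGroup W] [Module E W] [AddCommGroup W₂] [Module E W₂]

/-- The endomorphism of `W ≃ E ⊗ V` given by the endomorphism `A` of `V`. -/
noncomputable def transfer (f : Scal E V ≃ₗ[E] W) (A : Module.End ℚ V) : Module.End E W :=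
  f.conj (Scal.map E A)

/-- The space spanned by the endomorphisms of `W ≃ E ⊗ V` given by the elements of `L`. -/
def transferSpan (f : Scal E V ≃ₗ[E] W) (L : Submodule ℚ (Module.End ℚ V)) :
    Submodule E (Module.End E W) :=
  Submodule.span E {S | ∃ A ∈ L, S = transfer f A}

/-- `f` is compatible with the bilinear forms. -/
def Isometric (f : Scal E V ≃ₗ[E] W) (q : LinearMap.BilinForm ℚ V) (q' : LinearMap.BilinForm E W) :
    Prop :=
  ∀ x y, q' (f (Scal.of x)) (f (Scal.of y)) = algebraMap ℚ E (q x y)

/-- `f` is compatible with the actions `ρ` and `ρ'`. -/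
def Equivariant (f₂ : Scal E V₂ ≃ₗ[E] W₂) (f : Scal E V ≃ₗ[E] W) (ρ : Act ℚ V₂ V)
    (ρ' : Act E W₂ W) : Prop :=
  ∀ (A : Module.End ℚ V₂) (x : V), f (Scal.of (ρ A x)) = ρ' (transfer f₂ A) (f (Scal.of x))

/-- The operator `T` is diagonalizable with integral eigenvalues. -/
def IntegralDiag (T : Module.End E W) : Prop := (⨆ p : ℤ, T.eigenspace (p : E)) = ⊤

/-- `T = c + ∑ z_j ρ(A_j)`. -/
def IsCombo (T : Module.End E (Scal E V)) (c : E) (ρ : Act ℚ V₂ V) {n : ℕ} (z : Fin n → E)
    (A : Fin n → Module.End ℚ V₂) : Prop :=
  ∀ x, T x = c • x + ∑ j, z j • Scal.map E (ρ (A j)) x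

/-- The smallest Lie algebra of endomorphisms of `V` which contains the `A_j`. -/
def lieGen {n : ℕ} (A : Fin n → Module.End ℚ V) : Submodule ℚ (Module.End ℚ V) :=
  sInf {L | (∀ j, A j ∈ L) ∧ ∀ B ∈ L, ∀ C ∈ L, B * C - C * B ∈ L}

/-- The vector `v` is a generalized eigenvector of `f` for `c`. -/
def GenEigen (f : Module.End E W) (c : E) (v : W) : Prop :=
  ∃ N : ℕ, ((f - c • (1 : Module.End E W)) ^ N) v = 0

/-- If the operators `f σ`, for the elements `σ` of an open subgroup `U`, have a common stable subspace
`T` and if `f σ` is `χ σ` times a unipotent operator on `T`, then it is `χ σ` on `T`. -/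
def TrivialIfUnipotent {G : Type} [Group G] [TopologicalSpace G] (f : G → Module.End E W)
    (χ : G → E) : Prop :=
  ∀ (U : Subgroup G) (T : Submodule E W), IsOpen (U : Set G) → (∀ σ ∈ U, ∀ v ∈ T, f σ v ∈ T) →
    (∀ σ ∈ U, ∀ v ∈ T, GenEigen (f σ) (χ σ) v) → ∀ σ ∈ U, ∀ v ∈ T, f σ v = χ σ • v

end general

section families

variable {k : ℕ} {V : Fin k → Type} [∀ a, AddCommGroup (V a)] [∀ a, Module ℚ (V a)]

/-- Let `T a` be the operator which acts as `p` on the part of type `(p, q)` of the Hodge structure
`V a`. The complex extension of `θ` vanishes on tensors of types `p_1, …, p_k` with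
`p_1 + … + p_k ≠ m`. -/
def HodgeForm (T : ∀ a, Module.End ℂ (Scal ℂ (V a))) (m : ℤ) (θ : MultilinearMap ℚ V ℚ) : Prop :=
  ∃ θ' : MultilinearMap ℂ (fun a => Scal ℂ (V a)) ℂ,
    (∀ x, (θ' fun a => Scal.of (x a)) = algebraMap ℚ ℂ (θ x)) ∧
    ∀ (p : Fin k → ℤ) (x : ∀ a, Scal ℂ (V a)),
      (∀ a, T a (x a) = (p a : ℂ) • x a) → ∑ a, p a ≠ m → θ' x = 0

variable {E : Type} [Field E] [CharZero E] {W : Fin k → Type} [∀ a, AddCommGroup (W a)]
  [∀ a, Module E (W a)]

/-- The form `θ` on the spaces `W a ≃ E ⊗ V a` is the extension of the rational form `θ₀`. -/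
def ExtendsForm (f : ∀ a, Scal E (V a) ≃ₗ[E] W a) (θ₀ : MultilinearMap ℚ V ℚ)
    (θ : MultilinearMap E W E) : Prop :=
  ∀ x, (θ fun a => f a (Scal.of (x a))) = algebraMap ℚ E (θ₀ x)

end families

variable {Ω : Type} [Field Ω] [CharZero Ω] [TopologicalSpace Ω]

/-- The inverse of the cyclotomic character of `G`: the value at a geometric Frobenius element of `s`
is the number of elements of the residue field of `s`. It describes the action on `Ω(-1)`, and so its
square is the factor by which the form `q` on `H²` is multiplied. -/
structure Cyclotomic (X : HKFamily Ω) where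
  χ : X.G → Ω
  one : χ 1 = 1
  cont : Continuous χ
  sq : ∀ σ, χ σ ^ 2 = (X.F σ).μ
  frob : ∀ s, ∀ σ ∈ X.Frob s, χ σ = X.norm s

/-- The families of linear isomorphisms between the rational cohomology `B`, with coefficients
extended to `Ω`, and the `ℓ`-adic cohomology. -/
abbrev Cmp (X : HKFamily Ω) (B : Cohomology ℚ X.d X.c) : Type :=
  ∀ i, Scal Ω (B.H i) ≃ₗ[Ω] X.H.H i

/-- The singular cohomology `B` of `X` (for an embedding of `k` into the complex numbers) with rational
coefficients, and the comparison isomorphism with the `ℓ`-adic cohomology, compatible with the forms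
`q` and the actions of `so(H²)`. -/
structure Betti (X : HKFamily Ω) where
  B : Cohomology ℚ X.d X.c
  cmp : Cmp X B
  isometric : Isometric (cmp 2) B.q X.H.q
  equivariant : ∀ i ≤ X.d, Equivariant (cmp 2) (cmp i) (B.ρ i) (X.H.ρ i)

/-- The endomorphism of `H²` with coefficients `Ω` given by a rational endomorphism `A`. -/
noncomputable abbrev Betti.ext {X : HKFamily Ω} (D : Betti X) (A : Module.End ℚ (D.B.H 2)) :
    Module.End Ω (X.H.H 2) :=
  transfer (D.cmp 2) A

/-- The operators on the complex cohomology groups `H^i(X, ℂ)`. -/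
abbrev Ops {X : HKFamily Ω} (D : Betti X) : Type := ∀ i, Module.End ℂ (Scal ℂ (D.B.H i))

/-- The Hodge structures on the cohomology groups: `hodge i` is the operator on `H^i(X, ℂ)` which acts
as `p` on `H^(p, i - p)`. They are given by an element `J = ∑ z_j A_j` of `so(H²) ⊗ ℂ`: the operator
`hodge i` is `i / 2 + ρ_i(J)` (Verbitsky). Here the `A_j` are elements of `so(H²)` with rational
coefficients, and the complex numbers `z_j` are linearly independent over the rational numbers. -/
structure Hodge {X : HKFamily Ω} (D : Betti X) where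
  hodge : Ops D
  diag : ∀ i ≤ X.d, IntegralDiag (hodge i)
  n : ℕ
  z : Fin n → ℂ
  A : Fin n → Module.End ℚ (D.B.H 2)
  indep : LinearIndependent ℚ z
  skew : ∀ j, Skew D.B.q (A j)
  eq : ∀ i ≤ X.d, IsCombo (hodge i) ((i : ℂ) / 2) (D.B.ρ i) z A

/-- The Lie algebra of the Hodge group (special Mumford-Tate group) of `H²`: the smallest rational Lie
algebra `L` of endomorphisms of `H²` such that `J` is an element of `L ⊗ ℂ`. -/
abbrev Hodge.lie {X : HKFamily Ω} {D : Betti X} (J : Hodge D) :
    Submodule ℚ (Module.End ℚ (D.B.H 2)) :=
  lieGen J.A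

/-- The Lie algebra of the image in the projective general linear group, that is, in `so(H²)`, of the
Zariski closure of the image of the subset `O` of `G` (a neighbourhood of the identity): it is spanned
by the Lie algebras of the tori of its elements `σ`. The Lie algebra of the torus of `σ`, the smallest
algebraic group containing the semisimple part of `σ`, consists of the operators which act as
`w(e)` on the generalized eigenspaces of `σ` for the eigenvalues `e`, where `w` is a homomorphism from
the multiplicative to the additive group of `Ω`; `SS` is such an operator, minus the scalar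
`w(μ) / 2`. -/
noncomputable def galLie [IsAlgClosed Ω] (X : HKFamily Ω) (O : Set X.G) :
    Submodule Ω (Module.End Ω (X.H.H 2)) :=
  Submodule.span Ω {S | ∃ σ ∈ O, ∃ W : AddFun Ω, S = SS (X.F σ) W}

/-- The Mumford-Tate conjecture for `H²`: the Lie algebra of the algebraic monodromy group is the Lie
algebra of the Mumford-Tate group. This is a theorem of André, if `b₂ > 3`. For `b₂ = 3` it is easy: the
orthogonal complement `T` of an ample class in `H²` has dimension two, `so(T)` has dimension one, and
neither of the two Lie algebras is zero as the Hodge numbers and the Hodge-Tate weights of `T(1)` are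
not all zero. -/
def Hodge.MumfordTateTwo [IsAlgClosed Ω] {X : HKFamily Ω} {D : Betti X} (J : Hodge D) : Prop :=
  ∀ O : Set X.G, IsOpen O → 1 ∈ O → galLie X O = transferSpan (D.cmp 2) J.lie

section forms

variable {X : HKFamily Ω} {k : ℕ}

/-- The multilinear forms on `H^(r_1)(X) × … × H^(r_k)(X)` with coefficients `Ω`. By the Künneth
formula and Poincaré duality they are the elements of a direct summand of the cohomology of `X^k`, up
to a Tate twist. -/
abbrev Form (X : HKFamily Ω) (r : Fin k → ℕ) : Type :=
  MultilinearMap Ω (fun a => X.H.H (r a)) Ω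

/-- The multilinear forms on the rational cohomology. -/
abbrev RatForm (D : Betti X) (r : Fin k → ℕ) : Type :=
  MultilinearMap ℚ (fun a => D.B.H (r a)) ℚ

/-- The rational form `θ` is a Hodge class of weight zero in `(H^(r_1) ⊗ … ⊗ H^(r_k))^∨(-m)`: its
complex extension vanishes on `H^(p_1, q_1) × … × H^(p_k, q_k)`, if `p_1 + … + p_k ≠ m`. -/
def Hodge.IsHodge {D : Betti X} (J : Hodge D) (r : Fin k → ℕ) (m : ℕ) (θ : RatForm D r) : Prop :=
  HodgeForm (fun a => J.hodge (r a)) m θ

/-- The subspace generated by the Hodge classes. -/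
def Hodge.span {D : Betti X} (J : Hodge D) (r : Fin k → ℕ) (m : ℕ) : Submodule Ω (Form X r) :=
  Submodule.span Ω {θ | ∃ θ₀ : RatForm D r, J.IsHodge r m θ₀ ∧
    ExtendsForm (fun a => D.cmp (r a)) θ₀ θ}

/-- The action of `σ` on the forms. -/
noncomputable def act (X : HKFamily Ω) (r : Fin k → ℕ) (σ : X.G) : Module.End Ω (Form X r) :=
  pull fun a => en ((X.F σ).φ (r a))

/-- `θ` is a Tate class: an open subgroup of `G` acts trivially on it, after the Tate twist. -/
def Cyclotomic.IsTate (c : Cyclotomic X) (r : Fin k → ℕ) (m : ℕ) (θ : Form X r) : Prop :=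
  ∃ O : Set X.G, IsOpen O ∧ 1 ∈ O ∧ ∀ σ ∈ O, act X r σ θ = c.χ σ ^ m • θ

/-- `θ` is a generalized Tate class: after the Tate twist, the elements `σ` of an open subgroup of `G`
act unipotently on it. -/
def Cyclotomic.IsGenTate (c : Cyclotomic X) (r : Fin k → ℕ) (m : ℕ) (θ : Form X r) : Prop :=
  ∃ O : Set X.G, IsOpen O ∧ 1 ∈ O ∧ ∀ σ ∈ O, GenEigen (act X r σ) (c.χ σ ^ m) θ

/-- `G` is profinite, and if an open subgroup `U` of `G` acts on a stable subspace `W` of the forms by
unipotent operators, after the Tate twist, then it acts trivially on it. This is known: `W` is a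
successive extension of trivial representations (Kolchin), and it is de Rham at the places over `ℓ`
(Faltings). So the inertia groups act trivially on `W` (Sen, for the places over `ℓ`), and there is
no nontrivial homomorphism from the Galois group of a number field to the additive group `ℚ_ℓ` which
is unramified everywhere (class field theory), that is, `H¹_g(k, ℚ_ℓ) = 0`. For a finitely generated
field `k` the geometric fundamental group acts semisimply (Deligne), so trivially, and one reduces to
the number field by the specialization at a closed point. -/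
structure Cyclotomic.Arithmetic (c : Cyclotomic X) : Prop where
  small : ∀ O : Set X.G, IsOpen O → 1 ∈ O →
    ∃ U : Subgroup X.G, IsOpen (U : Set X.G) ∧ (U : Set X.G) ⊆ O
  unip : ∀ {k : ℕ} (r : Fin k → ℕ) (m : ℕ), (∀ a, r a ≤ X.d) →
    TrivialIfUnipotent (act X r) fun σ => c.χ σ ^ m

end forms

/-- A projective hyperkähler variety over a finitely generated field `k` of characteristic zero, of any
deformation type: its `ℓ`-adic cohomology with the action of the Galois group, its singular
cohomology, its Hodge structures, and the known facts on them. -/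
structure Variety (Ω : Type) [Field Ω] [CharZero Ω] [IsAlgClosed Ω] [TopologicalSpace Ω] where
  X : HKFamily Ω
  c : Cyclotomic X
  D : Betti X
  J : Hodge D
  andre : J.MumfordTateTwo
  arith : c.Arithmetic

end Pool.Agent.U434.HM
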