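import Pool.Agent.U434.HM.Multi

/-!
# Extension of scalars for multilinear forms
-/

set_option autoImplicit false

namespace Pool.Agent.U434.HM

open Module
open scoped TensorProduct

section

variable {K : Type} [Field K] {ι : Type} [Fintype ι] [DecidableEq ι] {V : ι → Type}
  [∀ a, AddCommGroup (V a)] [∀ a, Module K (V a)]

/-- A multilinear form which vanishes on spanning sets is zero. -/
lemma multi_span (S : ∀ a, Set (V a)) (hS : ∀ a, Submodule.span K (S a) = ⊤)
    (g : MultilinearMap K V K) (h : ∀ x : ∀ a, V a, (∀ a, x a ∈ S a) → g x = 0)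
    (x : ∀ a, V a) : g x = 0 := by
  have key : ∀ (s : Finset ι) (x : ∀ a, V a), (∀ a ∉ s, x a ∈ S a) → g x = 0 := by
    intro s
    induction s using Finset.induction_on with
    | empty => exact fun x hx => h x fun a => hx a (Finset.notMem_empty a)
    | insert a s ha ih =>
      intro x hx
      have h1 : Submodule.span K (S a) ≤ LinearMap.ker (g.toLinearMap x a) := by
        rw [Submodule.span_le]
        intro y hy
        change g (Function.update x a y) = 0
        refine ih _ fun b hb => ?_
        by_cases hba : b = a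
        · subst hba
          rw [Function.update_self]
          exact hy
        · rw [Function.update_of_ne hba]
          exact hx b (by simp [hba, hb])
      rw [hS a] at h1
      have h2 : g (Function.update x a (x a)) = 0 := h1 (Submodule.mem_top (x := x a))
      rwa [Function.update_eq_self] at h2
  exact key Finset.univ x fun a ha => absurd (Finset.mem_univ a) ha

end

/-- The vector space `E ⊗ V` over the field `E`, for a rational vector space `V`. -/
def Scal (E V : Type) [Field E] [CharZero E] [AddCommGroup V] [Module ℚ V] : Type := E ⊗[ℚ] V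

section

variable (E V : Type) [Field E] [CharZero E] [AddCommGroup V] [Module ℚ V]

noncomputable instance : AddCommGroup (Scal E V) :=
  (TensorProduct.addCommGroup : AddCommGroup (E ⊗[ℚ] V))

noncomputable instance : Module E (Scal E V) :=
  (TensorProduct.leftModule : Module E (E ⊗[ℚ] V))

instance [FiniteDimensional ℚ V] : FiniteDimensional E (Scal E V) :=
  (inferInstance : FiniteDimensional E (E ⊗[ℚ] V))

end

section

variable {E : Type} [Field E] [CharZero E]

/-- The element `1 ⊗ x` of `E ⊗ V`. -/
noncomputable def Scal.of {V : Type} [AddCommGroup V] [Module ℚ V] (x : V) : Scal E V :=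
  (1 : E) ⊗ₜ[ℚ] x

variable (E) in
/-- The endomorphism `1 ⊗ A` of `E ⊗ V`. -/
noncomputable def Scal.map {V : Type} [AddCommGroup V] [Module ℚ V] (A : Module.End ℚ V) :
    Module.End E (Scal E V) :=
  A.baseChange E

variable {V : Type} [AddCommGroup V] [Module ℚ V]

lemma of_add (x y : V) : Scal.of (E := E) (x + y) = Scal.of x + Scal.of y :=
  TensorProduct.tmul_add _ _ _

lemma of_smul (q : ℚ) (x : V) : Scal.of (E := E) (q • x) = algebraMap ℚ E q • Scal.of x := by
  change (1 : E) ⊗ₜ[ℚ] (q • x) = algebraMap ℚ E q • ((1 : E) ⊗ₜ[ℚ] x)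
  rw [TensorProduct.tmul_smul, algebraMap_smul]

lemma map_of (A : Module.End ℚ V) (x : V) : Scal.map E A (Scal.of x) = Scal.of (A x) :=
  LinearMap.baseChange_tmul _ _ _

variable (E V) in
lemma span_of : Submodule.span E (Set.range fun x : V => Scal.of (E := E) x) = ⊤ := by
  rw [eq_top_iff]
  intro y _
  change E ⊗[ℚ] V at y
  induction y using TensorProduct.induction_on with
  | zero => exact Submodule.zero_mem _
  | tmul e x =>
    have h1 : (e ⊗ₜ[ℚ] x : E ⊗[ℚ] V) = e • ((1 : E) ⊗ₜ[ℚ] x) := by
      rw [TensorProduct.smul_tmul', smul_eq_mul, mul_one]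
    rw [h1]
    exact Submodule.smul_mem _ e (Submodule.subset_span ⟨x, rfl⟩)
  | add y z hy hz => exact Submodule.add_mem _ (hy trivial) (hz trivial)

/-- The basis of `E ⊗ V` given by a basis of `V`. -/
noncomputable def scalBasis {κ : Type} (b : Basis κ ℚ V) : Basis κ E (Scal E V) := b.baseChange E

lemma scalBasis_apply {κ : Type} (b : Basis κ ℚ V) (j : κ) :
    scalBasis (E := E) b j = Scal.of (b j) :=
  Basis.baseChange_apply _ _ _

lemma scalBasis_repr {κ : Type} (b : Basis κ ℚ V) (x : V) (j : κ) :
    (scalBasis (E := E) b).repr (Scal.of x) j = algebraMap ℚ E (b.repr x j) := by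
  have h := Basis.baseChange_repr_tmul E b (1 : E) x j
  rw [Algebra.smul_def, mul_one] at h
  exact h

end

section

variable {E : Type} [Field E] [CharZero E] {ι : Type} [Fintype ι] [DecidableEq ι]
  {M : ι → Type} [∀ a, AddCommGroup (M a)] [∀ a, Module ℚ (M a)]

/-- A rational multilinear form extends to the extension of scalars. -/
lemma exists_ext [∀ a, FiniteDimensional ℚ (M a)] (θ : MultilinearMap ℚ M ℚ) :
    ∃ θ' : MultilinearMap E (fun a => Scal E (M a)) E,
      ∀ x : ∀ a, M a, (θ' fun a => Scal.of (x a)) = algebraMap ℚ E (θ x) := by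
  classical
  set b : ∀ a, Basis (Fin (finrank ℚ (M a))) ℚ (M a) := fun a => finBasis ℚ (M a) with hb
  set b' : ∀ a, Basis (Fin (finrank ℚ (M a))) E (Scal E (M a)) := fun a =>
    scalBasis (b a) with hb'
  refine ⟨∑ f : ∀ a, Fin (finrank ℚ (M a)), algebraMap ℚ E (θ fun a => b a (f a)) •
    (MultilinearMap.mkPiAlgebra E ι E).compLinearMap (fun a => (b' a).coord (f a)), fun x => ?_⟩
  rw [MultilinearMap.sum_apply]
  have h1 : θ x = ∑ f : ∀ a, Fin (finrank ℚ (M a)),
      (∏ a, (b a).repr (x a) (f a)) * θ fun a => b a (f a) := by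
    have h2 : x = fun a => ∑ j, (b a).repr (x a) j • b a j := by
      funext a
      exact ((b a).sum_repr (x a)).symm
    conv_lhs => rw [h2]
    rw [θ.map_sum]
    refine Finset.sum_congr rfl fun f _ => ?_
    rw [θ.map_smul_univ (fun a => (b a).repr (x a) (f a)) (fun a => b a (f a)), smul_eq_mul]
  rw [h1, map_sum]
  refine Finset.sum_congr rfl fun f _ => ?_
  rw [MultilinearMap.smul_apply, MultilinearMap.compLinearMap_apply,
    MultilinearMap.mkPiAlgebra_apply, map_mul, map_prod, smul_eq_mul, mul_comm]
  congr 1
  refine Finset.prod_congr rfl fun a _ => ?_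
  rw [Basis.coord_apply, hb', scalBasis_repr]

end

end Pool.Agent.U434.HM
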