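import Pool.Agent.U434.HM.Add

/-!
# Multilinear forms and generalized eigenspaces
-/

set_option autoImplicit false

namespace Pool.Agent.U434.HM

open Module Module.End Polynomial
open Pool.Agent.N184.HK

section

variable {K : Type} [Field K] {ι : Type} [Fintype ι] [DecidableEq ι] {V : ι → Type}
  [∀ a, AddCommGroup (V a)] [∀ a, Module K (V a)]

/-- The form `x ↦ θ (f x)`. -/
noncomputable def pull (f : ∀ a, Module.End K (V a)) : Module.End K (MultilinearMap K V K) :=
  MultilinearMap.compLinearMapₗ f

omit [Fintype ι] [DecidableEq ι] in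
lemma pull_apply (f : ∀ a, Module.End K (V a)) (θ : MultilinearMap K V K) (x : ∀ a, V a) :
    pull f θ x = θ fun a => f a (x a) := rfl

/-- The action of operators on the form `θ` by derivations: `∑_a θ(x_1, …, D_a x_a, …, x_k)`. -/
noncomputable def der (D : ∀ a, Module.End K (V a)) (θ : MultilinearMap K V K) (x : ∀ a, V a) : K :=
  ∑ a, θ (Function.update x a (D a (x a)))

omit [DecidableEq ι] in
lemma ev_nil (f : ∀ a, Module.End K (V a)) (e : ι → K) (θ : MultilinearMap K V K) (M : ℕ) :
    ∀ (k : ι → ℕ) (x : ∀ a, V a),
    (∀ a, ((f a - e a • (1 : Module.End K (V a))) ^ (k a)) (x a) = 0) → ∑ a, k a ≤ M →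
    (((pull f - (∏ a, e a) • (1 : Module.End K (MultilinearMap K V K))) ^ (M + 1)) θ) x = 0 := by
  classical
  induction M with
  | zero =>
    intro k x hx hk
    have hk0 : ∀ a, k a = 0 := fun a => by
      have := Finset.single_le_sum (f := k) (fun b _ => Nat.zero_le _) (Finset.mem_univ a)
      omega
    have hx0 : ∀ a, x a = 0 := fun a => by
      have := hx a
      rw [hk0 a, pow_zero] at this
      exact this
    rw [zero_add, pow_one, LinearMap.sub_apply, MultilinearMap.sub_apply, pull_apply,
      LinearMap.smul_apply, MultilinearMap.smul_apply, Module.End.one_apply]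
    by_cases hι : Nonempty ι
    · obtain ⟨a⟩ := hι
      rw [θ.map_coord_zero a (by rw [hx0 a, map_zero]), θ.map_coord_zero a (hx0 a)]
      simp
    · rw [not_nonempty_iff] at hι
      rw [Finset.prod_of_isEmpty, one_smul, sub_eq_zero]
      congr 1
      funext a
      exact hι.elim a
  | succ M ih =>
    intro k x hx hk
    set μ := ∏ a, e a with hμ
    set P := pull f - μ • (1 : Module.End K (MultilinearMap K V K)) with hP
    set θ' := (P ^ (M + 1)) θ with hθ'
    have h1 : (P ^ (M + 1 + 1)) θ = P θ' := by rw [pow_succ', Module.End.mul_apply]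
    rw [h1, hP, LinearMap.sub_apply, MultilinearMap.sub_apply, pull_apply,
      LinearMap.smul_apply, MultilinearMap.smul_apply, Module.End.one_apply]
    set y : ∀ a, V a := fun a => (f a - e a • (1 : Module.End K (V a))) (x a) with hy
    set ex : ∀ a, V a := fun a => e a • x a with hex
    have h2 : (fun a => f a (x a)) = ex + y := by
      funext a
      rw [Pi.add_apply, hex, hy]
      simp
    have h3 : θ' ex = μ • θ' x := by
      rw [hex, θ'.map_smul_univ e x]
    rw [h2, θ'.map_add_univ, ← Finset.add_sum_erase _ _ (Finset.mem_univ Finset.univ),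
      Finset.piecewise_univ, h3, add_sub_cancel_left]
    refine Finset.sum_eq_zero fun s hs => ?_
    have hsne : s ≠ Finset.univ := Finset.ne_of_mem_erase hs
    obtain ⟨a, ha⟩ : ∃ a, a ∉ s := by
      by_contra hcon
      push Not at hcon
      exact hsne (Finset.eq_univ_iff_forall.2 hcon)
    by_cases hka : k a = 0
    · have hxa := hx a
      rw [hka, pow_zero, Module.End.one_apply] at hxa
      refine θ'.map_coord_zero a ?_
      rw [Finset.piecewise_eq_of_notMem _ _ _ ha, hy]
      change (f a - e a • (1 : Module.End K (V a))) (x a) = 0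
      rw [hxa, map_zero]
    · refine ih (fun b => if b ∈ s then k b else k b - 1) _ (fun b => ?_) ?_
      · by_cases hb : b ∈ s
        · rw [if_pos hb, Finset.piecewise_eq_of_mem _ _ _ hb, hex, map_smul, hx b, smul_zero]
        · rw [if_neg hb, Finset.piecewise_eq_of_notMem _ _ _ hb, hy]
          change ((f b - e b • (1 : Module.End K (V b))) ^ (k b - 1))
            ((f b - e b • (1 : Module.End K (V b))) (x b)) = 0
          rw [← Module.End.mul_apply, ← pow_succ]
          have h4 := hx b
          rcases Nat.eq_zero_or_pos (k b) with h5 | h5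
          · rw [h5, pow_zero, Module.End.one_apply] at h4
            rw [h4, map_zero]
          · rw [Nat.sub_add_cancel h5]
            exact h4
      · have h4 : ∑ b, (if b ∈ s then k b else k b - 1) < ∑ b, k b := by
          refine Finset.sum_lt_sum (fun b _ => ?_) ⟨a, Finset.mem_univ a, ?_⟩
          · by_cases hb : b ∈ s
            · rw [if_pos hb]
            · rw [if_neg hb]; exact Nat.sub_le _ _
          · rw [if_neg ha]; omega
        omega

omit [DecidableEq ι] in
/-- A generalized eigenform for `l` vanishes on generalized eigenvectors, except if the product of the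
eigenvalues is `l`. -/
lemma eq_of_ne_zero {f : ∀ a, Module.End K (V a)} {e : ι → K} {θ : MultilinearMap K V K}
    {x : ∀ a, V a} (hx : ∀ a, x a ∈ (f a).maxGenEigenspace (e a)) {l : K} {N : ℕ}
    (hθ : ((pull f - l • (1 : Module.End K (MultilinearMap K V K))) ^ N) θ = 0)
    (hne : θ x ≠ 0) : ∏ a, e a = l := by
  by_contra hl
  refine hne ?_
  have hk : ∀ a, ∃ k : ℕ, ((f a - e a • (1 : Module.End K (V a))) ^ k) (x a) = 0 := fun a =>
    (Module.End.mem_maxGenEigenspace _ _ _).1 (hx a)
  choose k hk using hk
  set μ := ∏ a, e a with hμ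
  set P := pull f with hP
  set M := ∑ a, k a + 1 with hM
  have hcop : IsCoprime ((X - C l : K[X]) ^ N) ((X - C μ : K[X]) ^ M) := by
    refine IsCoprime.pow (isCoprime_X_sub_C_of_isUnit_sub ?_)
    exact isUnit_iff_ne_zero.2 (sub_ne_zero.2 (Ne.symm hl))
  obtain ⟨A, B, hAB⟩ := hcop
  have h1 : ∀ c : K, aeval P (X - C c : K[X]) =
      P - c • (1 : Module.End K (MultilinearMap K V K)) := by
    intro c
    rw [map_sub, aeval_X, aeval_C]
    rfl
  have h2 := congrArg (fun p => aeval P p θ) hAB
  simp only [map_add, map_mul, map_pow, map_one, h1, LinearMap.add_apply, Module.End.mul_apply,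
    hθ, map_zero, zero_add, Module.End.one_apply] at h2
  have h3 : aeval P B (((P - μ • (1 : Module.End K (MultilinearMap K V K))) ^ M) θ) =
      ((P - μ • (1 : Module.End K (MultilinearMap K V K))) ^ M) (aeval P B θ) := by
    rw [← Module.End.mul_apply, ← Module.End.mul_apply]
    congr 1
    rw [← h1, ← map_pow, ← map_mul, ← map_mul, mul_comm]
  rw [h3] at h2
  rw [← h2]
  exact ev_nil f e _ _ k x hk le_rfl

/-- A multilinear map which vanishes on generalized eigenvectors is zero. -/
lemma multi_zero [IsAlgClosed K] [∀ a, FiniteDimensional K (V a)]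
    (f : ∀ a, Module.End K (V a)) (g : MultilinearMap K V K)
    (h : ∀ (e : ι → K) (x : ∀ a, V a), (∀ a, x a ∈ (f a).maxGenEigenspace (e a)) → g x = 0)
    (x : ∀ a, V a) : g x = 0 := by
  have key : ∀ (s : Finset ι) (x : ∀ a, V a),
      (∀ a ∉ s, ∃ e, x a ∈ (f a).maxGenEigenspace e) → g x = 0 := by
    intro s
    induction s using Finset.induction_on with
    | empty =>
      intro x hx
      choose e he using fun a => hx a (Finset.notMem_empty a)
      exact h e x he
    | insert a s ha ih =>
      intro x hx
      have h1 : g.toLinearMap x a = 0 := by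
        refine ext_gen (f a) fun e y hy => ?_
        rw [LinearMap.zero_apply]
        change g (Function.update x a y) = 0
        refine ih _ fun b hb => ?_
        by_cases hba : b = a
        · subst hba
          rw [Function.update_self]
          exact ⟨e, hy⟩
        · rw [Function.update_of_ne hba]
          exact hx b (by simp [hba, hb])
      have h2 : g.toLinearMap x a (x a) = 0 := by rw [h1, LinearMap.zero_apply]
      change g (Function.update x a (x a)) = 0 at h2
      rwa [Function.update_eq_self] at h2
  exact key Finset.univ x fun a ha => absurd (Finset.mem_univ a) ha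

/-- The derivation as a multilinear map. -/
noncomputable def derM (D : ∀ a, Module.End K (V a)) (θ : MultilinearMap K V K) :
    MultilinearMap K V K :=
  ∑ a, θ.compLinearMap (Function.update (fun b => (1 : Module.End K (V b))) a (D a))

lemma derM_apply (D : ∀ a, Module.End K (V a)) (θ : MultilinearMap K V K) (x : ∀ a, V a) :
    derM D θ x = der D θ x := by
  rw [derM, MultilinearMap.sum_apply, der]
  refine Finset.sum_congr rfl fun a _ => ?_
  rw [MultilinearMap.compLinearMap_apply]
  congr 1
  funext b
  by_cases hb : b = a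
  · subst hb
    rw [Function.update_self, Function.update_self]
  · rw [Function.update_of_ne hb, Function.update_of_ne hb, Module.End.one_apply]

lemma der_scalar (D : ∀ a, Module.End K (V a)) (θ : MultilinearMap K V K) (x : ∀ a, V a)
    (c : ι → K) (h : ∀ a, D a (x a) = c a • x a) : der D θ x = (∑ a, c a) * θ x := by
  rw [der, Finset.sum_mul]
  refine Finset.sum_congr rfl fun a _ => ?_
  rw [h a, θ.map_update_smul, Function.update_eq_self, smul_eq_mul]

lemma der_add (D D' : ∀ a, Module.End K (V a)) (θ : MultilinearMap K V K) (x : ∀ a, V a) :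
    der (fun a => D a + D' a) θ x = der D θ x + der D' θ x := by
  rw [der, der, der, ← Finset.sum_add_distrib]
  refine Finset.sum_congr rfl fun a _ => ?_
  rw [LinearMap.add_apply, θ.map_update_add]

/-- The action of a Frobenius torus on a generalized eigenform. -/
lemma der_fop [IsAlgClosed K] [∀ a, FiniteDimensional K (V a)] {φ : ∀ a, V a ≃ₗ[K] V a}
    {θ : MultilinearMap K V K} {l : K} {N : ℕ}
    (hθ : ((pull (fun a => en (φ a)) - l • (1 : Module.End K (MultilinearMap K V K))) ^ N) θ = 0)
    (W : AddFun K) (x : ∀ a, V a) :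
    der (fun a => fop (en (φ a)) W.w) θ x = W.w l * θ x := by
  have h1 : ∀ x, (derM (fun a => fop (en (φ a)) W.w) θ - W.w l • θ) x = 0 := by
    refine multi_zero (fun a => en (φ a)) _ fun e x hx => ?_
    rw [MultilinearMap.sub_apply, MultilinearMap.smul_apply, derM_apply,
      der_scalar _ θ x (fun a => W.w (e a)) fun a => fop_apply _ (hx a), smul_eq_mul, ← sub_mul]
    by_cases h0 : θ x = 0
    · rw [h0, mul_zero]
    have h2 := eq_of_ne_zero hx hθ h0
    have hx0 : ∀ a, x a ≠ 0 := fun a h => h0 (θ.map_coord_zero a h)
    have he : ∀ a, e a ≠ 0 := fun a => root_ne (φ := φ a) (ne_bot_iff.1 fun h => hx0 a (by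
      have := hx a
      rw [h, Submodule.mem_bot] at this
      exact this))
    have h3 : W.w (∏ a, e a) = ∑ a, W.w (e a) := by
      have h4 := W.prod (s := Finset.univ.val.map e) (fun y hy => by
        obtain ⟨a, -, rfl⟩ := Multiset.mem_map.1 hy
        exact he a)
      rw [Multiset.map_map] at h4
      exact h4
    rw [← h2, h3, sub_self, zero_mul]
  have h2 := h1 x
  rw [MultilinearMap.sub_apply, MultilinearMap.smul_apply, derM_apply, sub_eq_zero,
    smul_eq_mul] at h2
  exact h2

end

end Pool.Agent.U434.HM
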