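import Pool.Agent.N184.HK.P_SL2B
import Pool.Agent.N184.HK.Eig

/-!
# In a finite-dimensional representation of `sl₂` the element `h` is diagonalizable
-/

set_option autoImplicit false

namespace Pool.Agent.U434.HM

open Module Module.End
open Pool.Agent.N184.HK Pool.Agent.N184.HK.P_SL2B

variable {K H : Type} [Field K] [AddCommGroup H] [Module K H]

/-- `T` is diagonalizable (over an algebraically closed field, in finite dimension). -/
def Diag (T : Module.End K H) : Prop := ∀ (e : K) (x : H), x ∈ T.maxGenEigenspace e → T x = e • x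

section

variable [CharZero K]

lemma raise' {X D N : Module.End K H} (h : Tr X D N) {w : H} (hX : X w = 0) (m : ℕ) :
    X ((N ^ (m + 1)) w) = ((m : K) + 1) • (N ^ m) (D w - (m : K) • w) := by
  have hXN : ∀ v, X (N v) = N (X v) + D v := by
    intro v
    have := LinearMap.congr_fun h.xn v
    rw [LinearMap.sub_apply, Module.End.mul_apply, Module.End.mul_apply] at this
    rw [← this]; abel
  have hDN : ∀ (n : ℕ) (v : H), D ((N ^ n) v) = (N ^ n) (D v) - ((n : K) * 2) • (N ^ n) v := by
    intro n v
    have h1 := LinearMap.congr_fun (pow_comm' h.dn n) v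
    rw [LinearMap.add_apply, Module.End.mul_apply, Module.End.mul_apply, LinearMap.smul_apply] at h1
    rw [h1, mul_neg, neg_smul, sub_eq_add_neg]
  induction m with
  | zero => simp [hXN, hX]
  | succ m ih =>
    have h2 : (N ^ (m + 1 + 1)) w = N ((N ^ (m + 1)) w) := by
      rw [pow_succ', Module.End.mul_apply]
    have h3 : N ((N ^ m) (D w - (m : K) • w)) = (N ^ (m + 1)) (D w - (m : K) • w) := by
      rw [pow_succ', Module.End.mul_apply]
    rw [h2, hXN, ih, map_smul, h3, hDN, map_sub, map_sub, map_smul, map_smul]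
    push_cast
    module

/-- The vectors `(D - j) v`. -/
lemma ker_stable {X D N : Module.End K H} (h : Tr X D N) {w : H} (hX : X w = 0) (c : K) :
    X (D w - c • w) = 0 := by
  have h1 := LinearMap.congr_fun h.dx w
  rw [LinearMap.sub_apply, Module.End.mul_apply, Module.End.mul_apply, LinearMap.smul_apply, hX,
    map_zero, smul_zero, zero_sub, neg_eq_zero] at h1
  rw [map_sub, map_smul, h1, hX, smul_zero, sub_zero]

/-- `X ^ m N ^ m v` for `v` in the kernel of `X`. -/
lemma up_down {X D N : Module.End K H} (h : Tr X D N) (m : ℕ) : ∀ w : H, X w = 0 →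
    ∃ c : K, c ≠ 0 ∧ (X ^ m) ((N ^ m) w) =
      c • ((List.range m).map (fun j : ℕ => D - (j : K) • (1 : Module.End K H))).prod w := by
  induction m with
  | zero => intro w _; exact ⟨1, one_ne_zero, by simp⟩
  | succ m ih =>
    intro w hw
    obtain ⟨c, hc, hc'⟩ := ih (D w - (m : K) • w) (ker_stable h hw _)
    refine ⟨((m : K) + 1) * c, mul_ne_zero (Nat.cast_add_one_ne_zero m) hc, ?_⟩
    rw [pow_succ, Module.End.mul_apply, raise' h hw, map_smul, hc', List.range_succ, List.map_append,
      List.prod_append, Module.End.mul_apply, List.map_singleton, List.prod_singleton,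
      smul_smul]
    rfl

end

section

variable [CharZero K] [IsAlgClosed K] [FiniteDimensional K H]

lemma injOn_of_ne {D : Module.End K H} {k j : K} (hkj : k ≠ j) {v : H}
    (hv : v ∈ D.maxGenEigenspace k) (h : D v - j • v = 0) : v = 0 := by
  have h1 : v ∈ D.maxGenEigenspace j := by
    rw [Module.End.mem_maxGenEigenspace]
    exact ⟨1, by rw [pow_one]; exact h⟩
  have h2 := (D.independent_maxGenEigenspace).pairwiseDisjoint hkj
  exact Submodule.disjoint_def.1 h2 v hv h1

lemma prod_inj {D : Module.End K H} {k : K} (m : ℕ) (hk : ∀ j < m, k ≠ (j : K)) {v : H}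
    (hv : v ∈ D.maxGenEigenspace k)
    (h : ((List.range m).map (fun j : ℕ => D - (j : K) • (1 : Module.End K H))).prod v = 0) :
    v = 0 := by
  induction m generalizing v with
  | zero => simpa using h
  | succ m ih =>
    rw [List.range_succ, List.map_append, List.prod_append, Module.End.mul_apply,
      List.map_singleton, List.prod_singleton] at h
    have h2 : (D - (m : K) • (1 : Module.End K H)) v ∈ D.maxGenEigenspace k := by
      have hc : Commute D (D - (m : K) • (1 : Module.End K H)) :=
        (Commute.refl D).sub_right ((Commute.one_right D).smul_right _)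
      exact D.mapsTo_maxGenEigenspace_of_comm hc k hv
    have h3 := ih (fun j hj => hk j (Nat.lt_succ_of_lt hj)) h2 h
    exact injOn_of_ne (hk m (Nat.lt_succ_self m)) hv h3

variable {X D N : Module.End K H} (h : Tr X D N)

include h in
lemma bij_down (j : ℕ) : Set.BijOn (⇑(N ^ j)) (D.maxGenEigenspace (j : K) : Set H)
    (D.maxGenEigenspace (-(j : K)) : Set H) :=
  (t_sl2b K H X D N h.dx h.dn h.xn).2 j

omit [CharZero K] [IsAlgClosed K] [FiniteDimensional K H] in
lemma neg_gen (D : Module.End K H) (e : K) :
    (-D).maxGenEigenspace e = D.maxGenEigenspace (-e) := by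
  ext x
  rw [Module.End.mem_maxGenEigenspace, Module.End.mem_maxGenEigenspace]
  have h1 : (-D) - e • (1 : Module.End K H) = -(D - (-e) • (1 : Module.End K H)) := by
    rw [neg_smul]; abel
  constructor
  · rintro ⟨k, hk⟩
    refine ⟨k, ?_⟩
    rw [h1, neg_pow] at hk
    rcases neg_one_pow_eq_or (Module.End K H) k with h2 | h2
    · rw [h2, one_mul] at hk; exact hk
    · rw [h2, neg_one_mul, LinearMap.neg_apply, neg_eq_zero] at hk; exact hk
  · rintro ⟨k, hk⟩
    refine ⟨k, ?_⟩
    rw [h1, neg_pow]
    rcases neg_one_pow_eq_or (Module.End K H) k with h2 | h2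
    · rw [h2, one_mul]; exact hk
    · rw [h2, neg_one_mul, LinearMap.neg_apply, hk, neg_zero]

include h in
lemma bij_up (j : ℕ) : Set.BijOn (⇑(X ^ j)) (D.maxGenEigenspace (-(j : K)) : Set H)
    (D.maxGenEigenspace (j : K) : Set H) := by
  have h1 := bij_down h.symm j
  rw [neg_gen, neg_gen, neg_neg] at h1
  exact h1

omit [CharZero K] [IsAlgClosed K] [FiniteDimensional K H] in
/-- shift of the weight -/
lemma shift {D A : Module.End K H} {c : K} (hA : D * A - A * D = c • A) {e : K} {v : H}
    (hv : v ∈ D.maxGenEigenspace e) : A v ∈ D.maxGenEigenspace (e + c) := by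
  rw [Module.End.mem_maxGenEigenspace] at hv ⊢
  obtain ⟨k, hk⟩ := hv
  refine ⟨k, ?_⟩
  have h1 : (D - (e + c) • (1 : Module.End K H)) * A = A * (D - e • (1 : Module.End K H)) := by
    have h2 : D * A = A * D + c • A := by rw [← hA]; abel
    rw [sub_mul, mul_sub, h2, smul_mul_assoc, mul_smul_comm, one_mul, mul_one, add_smul]
    abel
  have h2 : ∀ k : ℕ, (D - (e + c) • (1 : Module.End K H)) ^ k * A =
      A * (D - e • (1 : Module.End K H)) ^ k := by
    intro k
    induction k with
    | zero => simp
    | succ k ih => rw [pow_succ, mul_assoc, h1, ← mul_assoc, ih, mul_assoc, ← pow_succ]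
  have h3 := LinearMap.congr_fun (h2 k) v
  rw [Module.End.mul_apply, Module.End.mul_apply, hk, map_zero] at h3
  exact h3

include h in
lemma shift_N {e : K} {v : H} (hv : v ∈ D.maxGenEigenspace e) :
    N v ∈ D.maxGenEigenspace (e - 2) := by
  have := shift h.dn hv
  rwa [← sub_eq_add_neg] at this

include h in
lemma shift_Npow (j : ℕ) {e : K} {v : H} (hv : v ∈ D.maxGenEigenspace e) :
    (N ^ j) v ∈ D.maxGenEigenspace (e - 2 * j) := by
  induction j with
  | zero => simpa using hv
  | succ j ih =>
    have := shift_N h ih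
    rw [pow_succ', Module.End.mul_apply]
    convert this using 2
    push_cast
    ring

include h in
/-- `N ^ (k + 1)` kills the primitive vectors of weight `k`. -/
lemma prim_kill {k : ℕ} {v : H} (hv : v ∈ D.maxGenEigenspace (k : K)) (hX : X v = 0) :
    (N ^ (k + 1)) v = 0 := by
  have h1 := shift_Npow h (k + 1) hv
  have h2 : ((k : K) - 2 * ((k + 1 : ℕ) : K)) = -((k + 2 : ℕ) : K) := by push_cast; ring
  rw [h2] at h1
  obtain ⟨c, -, hc⟩ := up_down h (k + 1) v hX
  have h3 : (X ^ (k + 2)) ((N ^ (k + 1)) v) = 0 := by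
    rw [show k + 2 = (k + 1) + 1 from rfl, pow_succ' X (k + 1), Module.End.mul_apply, hc, map_smul]
    have h4 : ∀ (m : ℕ) (w : H), X w = 0 →
        X (((List.range m).map (fun j : ℕ => D - (j : K) • (1 : Module.End K H))).prod w) = 0 := by
      intro m
      induction m with
      | zero => intro w hw; simpa using hw
      | succ m ih =>
        intro w hw
        rw [List.range_succ, List.map_append, List.prod_append, Module.End.mul_apply,
          List.map_singleton, List.prod_singleton]
        exact ih _ (ker_stable h hw _)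
    rw [h4 _ _ hX, smul_zero]
  refine (bij_up h (k + 2)).injOn h1 (Submodule.zero_mem _) ?_
  rw [h3, map_zero]

include h in
lemma prim_diag {k : ℕ} {v : H} (hv : v ∈ D.maxGenEigenspace (k : K)) (hX : X v = 0) :
    D v = (k : K) • v := by
  obtain ⟨c, hc0, hc⟩ := up_down h (k + 1) v hX
  rw [prim_kill h hv hX, map_zero, List.range_succ, List.map_append, List.prod_append,
    Module.End.mul_apply, List.map_singleton, List.prod_singleton] at hc
  have h1 := (smul_eq_zero.1 hc.symm).resolve_left hc0
  have h2 : (D - (k : K) • (1 : Module.End K H)) v ∈ D.maxGenEigenspace (k : K) := by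
    have hc : Commute D (D - (k : K) • (1 : Module.End K H)) :=
      (Commute.refl D).sub_right ((Commute.one_right D).smul_right _)
    exact D.mapsTo_maxGenEigenspace_of_comm hc _ hv
  have h3 := prod_inj k (fun j hj hjk => by
    have : k = j := by exact_mod_cast hjk
    omega) h2 h1
  exact sub_eq_zero.1 h3

include h in
lemma split_top {k : ℕ} {v : H} (hv : v ∈ D.maxGenEigenspace (k : K)) :
    ∃ v₀ ∈ D.maxGenEigenspace (k : K), X v₀ = 0 ∧ ∃ w ∈ D.maxGenEigenspace ((k : K) + 2),
      v = v₀ + N w := by
  set E := D.maxGenEigenspace ((k : K) + 2) with hE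
  have hmap : ∀ w ∈ E, (X * N) w ∈ E := by
    intro w hw
    have h1 := shift_N h hw
    have h2 := shift h.dx h1
    have h3 : (k : K) + 2 - 2 + 2 = (k : K) + 2 := by ring
    rw [h3] at h2
    exact h2
  have hinj : Function.Injective ((X * N).restrict hmap) := by
    rw [injective_iff_map_eq_zero]
    rintro ⟨w, hw⟩ h0
    have h1 : X (N w) = 0 := congrArg Subtype.val h0
    have h2 := shift_N h hw
    rw [add_sub_cancel_right] at h2
    have h3 := prim_kill h h2 h1
    rw [← Module.End.mul_apply, ← pow_succ] at h3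
    have h4 : w ∈ D.maxGenEigenspace ((k + 2 : ℕ) : K) := by
      push_cast
      exact hw
    have h5 := (bij_down h (k + 2)).injOn h4 (Submodule.zero_mem _) (by
      rw [map_zero]; exact h3)
    exact Subtype.ext h5
  have hsurj := LinearMap.injective_iff_surjective.1 hinj
  have hXv : X v ∈ E := shift h.dx hv
  obtain ⟨⟨w, hw⟩, hw'⟩ := hsurj ⟨X v, hXv⟩
  have h1 : X (N w) = X v := congrArg Subtype.val hw'
  refine ⟨v - N w, ?_, by rw [map_sub, h1, sub_self], w, hw, by abel⟩
  have h2 := shift_N h hw
  rw [add_sub_cancel_right] at h2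
  exact Submodule.sub_mem _ hv h2

include h in
lemma step_diag {e : K} (ih : ∀ x ∈ D.maxGenEigenspace (e + 2), D x = (e + 2) • x)
    {w : H} (hw : w ∈ D.maxGenEigenspace (e + 2)) : D (N w) = e • N w := by
  have h1 := LinearMap.congr_fun h.dn w
  rw [LinearMap.sub_apply, Module.End.mul_apply, Module.End.mul_apply, LinearMap.smul_apply,
    ih w hw, map_smul] at h1
  have h2 : D (N w) = (e + 2) • N w + -(2 : K) • N w := by rw [← h1]; abel
  rw [h2, ← add_smul]
  congr 1
  ring

include h in
/-- In a finite-dimensional representation of `sl₂` the element `h` is diagonalizable. -/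
theorem diag_sl2 : Diag D := by
  -- the integral eigenvalues
  have key : ∀ (n : ℕ) (k : ℤ), (∀ m : ℤ, k + 2 * n ≤ m → D.maxGenEigenspace (m : K) = ⊥) →
      ∀ x ∈ D.maxGenEigenspace (k : K), D x = (k : K) • x := by
    intro n
    induction n with
    | zero =>
      intro k hk x hx
      rw [hk k (by simp), Submodule.mem_bot] at hx
      rw [hx, map_zero, smul_zero]
    | succ n ih =>
      intro k hk x hx
      have ih' := ih (k + 2) fun m hm => hk m (by push_cast at hm ⊢; linarith)
      have ih2 : ∀ x ∈ D.maxGenEigenspace ((k : K) + 2), D x = ((k : K) + 2) • x := by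
        intro x hx
        have := ih' x (by push_cast; exact hx)
        push_cast at this
        exact this
      rcases le_or_gt 0 k with h0 | h0
      · obtain ⟨k', rfl⟩ := Int.eq_ofNat_of_zero_le h0
        rw [Int.cast_natCast] at hx ih2 ⊢
        obtain ⟨v₀, hv₀, hX, w, hw, rfl⟩ := split_top h hx
        rw [map_add, smul_add, prim_diag h hv₀ hX, step_diag h ih2 hw]
      · obtain ⟨j, hj⟩ : ∃ j : ℕ, k = -((j + 1 : ℕ) : ℤ) := ⟨(-k - 1).toNat, by omega⟩
        have hx2 : x ∈ D.maxGenEigenspace (-((j + 1 : ℕ) : K)) := by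
          rw [hj] at hx
          push_cast at hx ⊢
          exact hx
        obtain ⟨y, hy, hyx⟩ := (bij_down h (j + 1)).surjOn hx2
        rw [pow_succ', Module.End.mul_apply] at hyx
        rw [← hyx]
        refine step_diag h ih2 ?_
        have h3 := shift_Npow h j hy
        have h4 : ((j + 1 : ℕ) : K) - 2 * (j : K) = (k : K) + 2 := by
          rw [hj]; push_cast; ring
        rw [h4] at h3
        exact h3
  -- a bound for the eigenvalues
  have hfin := fin_ne D
  have hbound : ∃ B : ℤ, ∀ m : ℤ, B ≤ m → D.maxGenEigenspace (m : K) = ⊥ := by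
    have hf2 : {m : ℤ | D.maxGenEigenspace (m : K) ≠ ⊥}.Finite :=
      hfin.preimage (f := fun m : ℤ => (m : K)) (Int.cast_injective.injOn)
    obtain ⟨B, hB⟩ := hf2.bddAbove
    refine ⟨B + 1, fun m hm => ?_⟩
    by_contra hne
    have := hB hne
    omega
  obtain ⟨B, hB⟩ := hbound
  intro e x hx
  by_cases hx0 : x = 0
  · rw [hx0, map_zero, smul_zero]
  have he : D.HasEigenvalue e := by
    have h1 : D.maxGenEigenspace e ≠ ⊥ := fun h0 => hx0 (by
      rw [h0, Submodule.mem_bot] at hx; exact hx)
    have h2 := ne_bot_iff.1 h1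
    rw [Polynomial.mem_roots (LinearMap.charpoly_monic D).ne_zero] at h2
    exact (Module.End.hasEigenvalue_iff_isRoot_charpoly _ _).2 h2
  obtain ⟨k, rfl⟩ := (t_sl2b K H X D N h.dx h.dn h.xn).1 e he
  exact key (B - k).toNat k (fun m hm => hB m (by have := Int.self_le_toNat (B - k); omega)) x hx

end

end Pool.Agent.U434.HM
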