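import Pool.Agent.U434.HM.Defs

/-!
# Generalized Tate classes are Hodge classes
-/

set_option autoImplicit false

namespace Pool.Agent.U434.HM

open Module
open Pool.Agent.N184.HK Pool.Agent.U434.PA
open scoped TensorProduct

section

variable {K : Type} [Field K] {ι : Type} [Fintype ι] [DecidableEq ι] {V : ι → Type}
  [∀ a, AddCommGroup (V a)] [∀ a, Module K (V a)]

lemma der_smul (D : ∀ a, Module.End K (V a)) (θ : MultilinearMap K V K) (x : ∀ a, V a) (c : K) :
    der (fun a => c • D a) θ x = c * der D θ x := by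
  rw [der, der, Finset.mul_sum]
  refine Finset.sum_congr rfl fun a _ => ?_
  rw [LinearMap.smul_apply, θ.map_update_smul, smul_eq_mul]

lemma der_zero (θ : MultilinearMap K V K) (x : ∀ a, V a) :
    der (fun a => (0 : Module.End K (V a))) θ x = 0 := by
  rw [der]
  refine Finset.sum_eq_zero fun a _ => ?_
  refine θ.map_coord_zero a ?_
  rw [Function.update_self, LinearMap.zero_apply]

end

variable {Ω : Type} [Field Ω] [CharZero Ω] [TopologicalSpace Ω] {X : HKFamily Ω} {k : ℕ}

/-- The elements of `End(H²)` which kill the form `θ`. -/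
noncomputable def kills (r : Fin k → ℕ) (θ : Form X r) : Submodule Ω (Module.End Ω (X.H.H 2)) where
  carrier := {A | ∀ x, der (fun a => X.H.ρ (r a) A) θ x = 0}
  add_mem' := by
    intro A B hA hB x
    have h1 : (fun a => X.H.ρ (r a) (A + B)) = fun a => X.H.ρ (r a) A + X.H.ρ (r a) B := by
      funext a; exact map_add _ _ _
    rw [h1, der_add, hA x, hB x, add_zero]
  zero_mem' := by
    intro x
    have h1 : (fun a => X.H.ρ (r a) (0 : Module.End Ω (X.H.H 2))) = fun a => 0 := by
      funext a; exact map_zero _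
    rw [h1, der_zero]
  smul_mem' := by
    intro c A hA x
    have h1 : (fun a => X.H.ρ (r a) (c • A)) = fun a => c • X.H.ρ (r a) A := by
      funext a; exact map_smul _ _ _
    rw [h1, der_smul, hA x, mul_zero]

omit [CharZero Ω] in
lemma inClosure (σ : X.G) : InClosure X (X.F σ) := fun _ _ h => h _ ⟨σ, rfl⟩

omit [CharZero Ω] [TopologicalSpace Ω] in
lemma sum_half {r : Fin k → ℕ} {m : ℕ} (hm : ∑ a, r a = 2 * m) : ∑ a, (r a : Ω) = 2 * m := by
  have := congrArg (fun n : ℕ => (n : Ω)) hm
  push_cast at this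
  exact this

section

variable [IsAlgClosed Ω] [IsTopologicalRing Ω] [T2Space Ω]

/-- The torus of `σ` on the forms. -/
lemma der_SS {r : Fin k → ℕ} (hr : ∀ a, r a ≤ X.d) {m : ℕ} (hm : ∑ a, r a = 2 * m)
    (c : Cyclotomic X) (σ : X.G) (W : AddFun Ω) (θ : Form X r) (x : ∀ a, X.H.H (r a)) :
    der (fun a => fop (en ((X.F σ).φ (r a))) W.w) θ x =
      W.w (c.χ σ ^ m) * θ x + der (fun a => X.H.ρ (r a) (SS (X.F σ) W)) θ x := by
  have h1 : (fun a => fop (en ((X.F σ).φ (r a))) W.w) = fun a =>
      ((r a : Ω) * W.w (X.F σ).μ / 4) • (1 : Module.End Ω (X.H.H (r a))) +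
        X.H.ρ (r a) (SS (X.F σ) W) := by
    funext a
    exact fop_formula (inClosure σ) W (hr a)
  have hχ : c.χ σ ≠ 0 := fun h0 => (X.F σ).μ_ne (by rw [← c.sq σ, h0]; ring)
  rw [h1, der_add, der_scalar _ θ x (fun a => (r a : Ω) * W.w (X.F σ).μ / 4) fun a => rfl]
  congr 2
  rw [← Finset.sum_div, ← Finset.sum_mul, sum_half hm, ← c.sq, W.pow hχ, W.pow hχ]
  push_cast
  ring

/-- The generalized Tate classes are killed by the Lie algebra of the image of `G`. -/
lemma tate_kill {r : Fin k → ℕ} (hr : ∀ a, r a ≤ X.d) {m : ℕ} (hm : ∑ a, r a = 2 * m)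
    (c : Cyclotomic X) {θ : Form X r} {O : Set X.G}
    (hO : ∀ σ ∈ O, ∃ N : ℕ,
      ((act X r σ - c.χ σ ^ m • (1 : Module.End Ω (Form X r))) ^ N) θ = 0) :
    galLie X O ≤ kills r θ := by
  rw [galLie, Submodule.span_le]
  rintro _ ⟨σ, hσ, W, rfl⟩ x
  obtain ⟨N, hN⟩ := hO σ hσ
  have h1 := der_fop (φ := fun a => (X.F σ).φ (r a)) hN W x
  rw [der_SS hr hm c σ W θ x] at h1
  exact add_eq_left.1 h1

end

section rational

variable (D : Betti X) (r : Fin k → ℕ)

/-- The values of `θ` on rational classes. -/
noncomputable def restr (θ : Form X r) : MultilinearMap ℚ (fun a => D.B.H (r a)) Ω where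
  toFun x := θ fun a => D.cmp (r a) (Scal.of (x a))
  map_update_add' := by
    intro _ x a y z
    have h1 : ∀ w, (fun b => D.cmp (r b) (Scal.of (Function.update x a w b))) =
        Function.update (fun b => D.cmp (r b) (Scal.of (x b))) a
          (D.cmp (r a) (Scal.of w)) := by
      intro w
      funext b
      by_cases hb : b = a
      · subst hb; simp
      · simp [Function.update_of_ne hb]
    rw [h1, h1, h1, of_add, map_add, θ.map_update_add]
  map_update_smul' := by
    intro _ x a q y
    have h1 : ∀ w, (fun b => D.cmp (r b) (Scal.of (Function.update x a w b))) =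
        Function.update (fun b => D.cmp (r b) (Scal.of (x b))) a
          (D.cmp (r a) (Scal.of w)) := by
      intro w
      funext b
      by_cases hb : b = a
      · subst hb; simp
      · simp [Function.update_of_ne hb]
    rw [h1, h1, of_smul, map_smul, θ.map_update_smul, smul_eq_mul, Algebra.smul_def]

lemma restr_apply (θ : Form X r) (x : ∀ a, D.B.H (r a)) :
    restr D r θ x = θ fun a => D.cmp (r a) (Scal.of (x a)) := rfl

variable {D r}

lemma restr_update (hr : ∀ a, r a ≤ X.d) (θ : Form X r) (A : Module.End ℚ (D.B.H 2))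
    (x : ∀ a, D.B.H (r a)) (a : Fin k) :
    restr D r θ (Function.update x a (D.B.ρ (r a) A (x a))) =
      θ (Function.update (fun b => D.cmp (r b) (Scal.of (x b))) a
        (X.H.ρ (r a) (D.ext A) (D.cmp (r a) (Scal.of (x a))))) := by
  rw [restr_apply]
  congr 1
  funext b
  by_cases hb : b = a
  · subst hb
    rw [Function.update_self, Function.update_self, D.equivariant (r b) (hr b) A (x b)]
  · rw [Function.update_of_ne hb, Function.update_of_ne hb]

/-- A rational linear form of the values of a form killed by `A`. -/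
lemma coord_kill (hr : ∀ a, r a ≤ X.d) {θ : Form X r} {A : Module.End ℚ (D.B.H 2)}
    (hA : D.ext A ∈ kills r θ) (φ : Ω →ₗ[ℚ] ℚ) (x : ∀ a, D.B.H (r a)) :
    der (fun a => D.B.ρ (r a) A) (φ.compMultilinearMap (restr D r θ)) x = 0 := by
  have h1 := hA fun a => D.cmp (r a) (Scal.of (x a))
  rw [der] at h1 ⊢
  have h2 := congrArg φ h1
  rw [map_sum, map_zero] at h2
  rw [← h2]
  refine Finset.sum_congr rfl fun a _ => ?_
  rw [LinearMap.compMultilinearMap_apply, restr_update hr]

/-- Rational forms killed by the Hodge Lie algebra are Hodge classes. -/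
lemma isHodge_of_kill (J : Hodge D) (hr : ∀ a, r a ≤ X.d) {m : ℕ} (hm : ∑ a, r a = 2 * m)
    {θ : RatForm D r} (h : ∀ j x, der (fun a => D.B.ρ (r a) (J.A j)) θ x = 0) :
    J.IsHodge r m θ := by
  obtain ⟨θ', hθ'⟩ := exists_ext (E := ℂ) θ
  refine ⟨θ', hθ', fun p x hx hp => ?_⟩
  -- the complex extension is killed by the `A j`
  have hk : ∀ j (x : ∀ a, Scal ℂ (D.B.H (r a))),
      der (fun a => Scal.map ℂ (D.B.ρ (r a) (J.A j))) θ' x = 0 := by
    intro j x
    rw [← derM_apply]
    refine multi_span (fun a => Set.range fun x : D.B.H (r a) => Scal.of (E := ℂ) x)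
      (fun a => span_of ℂ (D.B.H (r a))) _ (fun y hy => ?_) x
    choose y' hy' using hy
    have h2 : y = fun a => Scal.of (y' a) := by
      funext a
      exact (hy' a).symm
    rw [h2, derM_apply, der]
    have h3 := congrArg (algebraMap ℚ ℂ) (h j y')
    rw [der, map_sum, map_zero] at h3
    rw [← h3]
    refine Finset.sum_congr rfl fun a _ => ?_
    rw [← hθ']
    congr 1
    funext b
    by_cases hb : b = a
    · subst hb
      rw [Function.update_self, Function.update_self, map_of]
    · rw [Function.update_of_ne hb, Function.update_of_ne hb]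
  have h1 : der (fun a => J.hodge (r a)) θ' x = (∑ a, (p a : ℂ)) * θ' x :=
    der_scalar _ θ' x _ hx
  have h2 : (fun a => J.hodge (r a)) = fun a =>
      ((r a : ℂ) / 2) • (1 : Module.End ℂ (Scal ℂ (D.B.H (r a)))) +
        ∑ j, J.z j • Scal.map ℂ (D.B.ρ (r a) (J.A j)) := by
    funext a
    refine LinearMap.ext fun x => ?_
    rw [J.eq (r a) (hr a) x, LinearMap.add_apply, LinearMap.smul_apply, Module.End.one_apply,
      LinearMap.sum_apply]
    rfl
  have h3 : ∀ (s : Finset (Fin J.n)),
      der (fun a => ∑ j ∈ s, J.z j • Scal.map ℂ (D.B.ρ (r a) (J.A j))) θ' x = 0 := by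
    intro s
    classical
    induction s using Finset.induction_on with
    | empty =>
      simp only [Finset.sum_empty]
      exact der_zero θ' x
    | insert j s hj ih =>
      simp only [Finset.sum_insert hj]
      rw [der_add, ih, add_zero, der_smul, hk j x, mul_zero]
  rw [h2, der_add, h3, add_zero, der_scalar _ θ' x (fun a => (r a : ℂ) / 2) fun a => rfl,
    ← Finset.sum_div, sum_half hm] at h1
  have h4 : ((m : ℂ) - ∑ a, (p a : ℂ)) * θ' x = 0 := by linear_combination h1
  refine (mul_eq_zero.1 h4).resolve_left fun h5 => hp ?_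
  have h6 : ((∑ a, p a : ℤ) : ℂ) = ((m : ℤ) : ℂ) := by
    push_cast
    linear_combination -h5
  exact_mod_cast h6

lemma mem_lie (J : Hodge D) (j : Fin J.n) : J.A j ∈ J.lie := by
  rw [Hodge.lie, lieGen, Submodule.mem_sInf]
  exact fun L hL => hL.1 j

/-- A form which is killed by the Lie algebra of the Hodge group is a combination of Hodge
classes. -/
theorem mem_span_of_kill (J : Hodge D) (hr : ∀ a, r a ≤ X.d) {m : ℕ} (hm : ∑ a, r a = 2 * m)
    {θ : Form X r} (h : ∀ A ∈ J.lie, D.ext A ∈ kills r θ) : θ ∈ J.span r m := by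
  classical
  set ω := Basis.ofVectorSpace ℚ Ω with hω
  set b : ∀ a, Basis (Fin (finrank ℚ (D.B.H (r a)))) ℚ (D.B.H (r a)) := fun a =>
    finBasis ℚ (D.B.H (r a)) with hb
  set R := restr D r θ with hR
  -- the rational components
  set θs : Basis.ofVectorSpaceIndex ℚ Ω → RatForm D r := fun s =>
    (ω.coord s).compMultilinearMap R with hθs
  have hH : ∀ s, J.IsHodge r m (θs s) := fun s =>
    isHodge_of_kill J hr hm fun j x => coord_kill hr (h _ (mem_lie J j)) (ω.coord s) x
  -- the extensions of scalars
  have hex : ∀ s, ∃ θ' : Form X r, ∀ x, (θ' fun a => D.cmp (r a) (Scal.of (x a))) =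
      algebraMap ℚ Ω (θs s x) := by
    intro s
    obtain ⟨θ', hθ'⟩ := exists_ext (E := Ω) (θs s)
    refine ⟨θ'.compLinearMap fun a => (D.cmp (r a)).symm.toLinearMap, fun x => ?_⟩
    rw [← hθ', MultilinearMap.compLinearMap_apply]
    congr 1
    funext a
    simp
  choose θ' hθ' using hex
  -- a finite set of indices
  set S : Finset (Basis.ofVectorSpaceIndex ℚ Ω) :=
    Finset.univ.biUnion fun f : (∀ a, Fin (finrank ℚ (D.B.H (r a)))) =>
      (ω.repr (R fun a => b a (f a))).support with hS
  have hθ : θ = ∑ s ∈ S, ω s • θ' s := by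
    have h1 : ∀ x, (θ - ∑ s ∈ S, ω s • θ' s) x = 0 := by
      refine multi_span (fun a => Set.range fun j => D.cmp (r a) (Scal.of (b a j)))
        (fun a => ?_) _ fun y hy => ?_
      · have h2 := (scalBasis (E := Ω) (b a)).span_eq
        have h3 : (Set.range fun j => D.cmp (r a) (Scal.of (b a j))) =
            (D.cmp (r a)) '' Set.range (scalBasis (E := Ω) (b a)) := by
          ext z
          constructor
          · rintro ⟨j, rfl⟩
            exact ⟨_, ⟨j, rfl⟩, by rw [scalBasis_apply]⟩
          · rintro ⟨_, ⟨j, rfl⟩, rfl⟩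
            exact ⟨j, by rw [scalBasis_apply]⟩
        rw [h3]
        have h4 := (Submodule.map_span (D.cmp (r a)).toLinearMap
          (Set.range (scalBasis (E := Ω) (b a)))).symm
        have h5 : Submodule.span Ω ((D.cmp (r a)) '' Set.range (scalBasis (E := Ω) (b a))) =
            Submodule.map (D.cmp (r a)).toLinearMap
              (Submodule.span Ω (Set.range (scalBasis (E := Ω) (b a)))) := h4
        rw [h5, h2, Submodule.map_top, LinearMap.range_eq_top]
        exact (D.cmp (r a)).surjective
      · choose f hf using hy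
        have h2 : y = fun a => D.cmp (r a) (Scal.of (b a (f a))) := by
          funext a
          exact (hf a).symm
        rw [h2, MultilinearMap.sub_apply, MultilinearMap.sum_apply, sub_eq_zero]
        have h3 : (θ fun a => D.cmp (r a) (Scal.of (b a (f a)))) =
            R fun a => b a (f a) := rfl
        rw [h3]
        conv_lhs => rw [← ω.linearCombination_repr (R fun a => b a (f a)),
          Finsupp.linearCombination_apply, Finsupp.sum]
        rw [Finset.sum_subset (Finset.subset_biUnion_of_mem
          (fun f : (∀ a, Fin (finrank ℚ (D.B.H (r a)))) =>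
            (ω.repr (R fun a => b a (f a))).support) (Finset.mem_univ f)) (fun s _ hs => by
              rw [Finsupp.notMem_support_iff.1 hs, zero_smul])]
        refine Finset.sum_congr rfl fun s _ => ?_
        rw [MultilinearMap.smul_apply, hθ' s (fun a => b a (f a)), smul_eq_mul, Algebra.smul_def,
          mul_comm]
        rfl
    exact sub_eq_zero.1 (MultilinearMap.ext h1)
  rw [hθ]
  exact Submodule.sum_mem _ fun s _ => Submodule.smul_mem _ _
    (Submodule.subset_span ⟨θs s, hH s, hθ' s⟩)

end rational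

section

variable [IsAlgClosed Ω] [IsTopologicalRing Ω] [T2Space Ω] {D : Betti X}

/-- Generalized Tate classes are combinations of Hodge classes. -/
theorem tate_hodge (c : Cyclotomic X) (J : Hodge D) (hMT : J.MumfordTateTwo)
    {r : Fin k → ℕ} (hr : ∀ a, r a ≤ X.d) {m : ℕ} (hm : ∑ a, r a = 2 * m)
    {θ : Form X r} (h : c.IsGenTate r m θ) : θ ∈ J.span r m := by
  obtain ⟨O, hO, h1, h2⟩ := h
  refine mem_span_of_kill J hr hm fun A hA => ?_
  refine tate_kill hr hm c h2 ?_
  rw [hMT O hO h1]
  exact Submodule.subset_span ⟨A, hA, rfl⟩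

end

end Pool.Agent.U434.HM
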